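import Pool.Agent.Helper81.NX2.CharRepA

/-!
# Project NX2, module A6: replacing functions by characters times functions which are almost
constant along progressions
-/

set_option autoImplicit false

open Finset
open scoped BigOperators ComplexConjugate

namespace Pool.Agent.Helper67.NX2

open Pool.Agent.Helper57.NX

noncomputable section

/-- A character times a function which is almost constant along progressions. -/
def NiceQ {m N : ℕ} [NeZero N] (S : Sys (m + 1)) (c : Fin (m + 1) → ℝ) (Xi ε B : ℝ)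
    (i : Fin (m + 1)) (ψ : ZMod N → ℂ) : Prop :=
  ∃ (q : ℕ) (b : ZMod N) (g : ZMod N → ℂ), 1 ≤ q ∧ (q : ℝ) ≤ B ∧ |fr b| ≤ B / Xi ∧ Adm B Xi g ∧
    (∀ (x : ZMod N) (t : ℤ), ‖g (x + ((stp S.Q q (c i) * t : ℤ) : ZMod N)) - g x‖ ≤
      |(t : ℝ)| * (stp S.Q q (c i) : ℝ) * S.D ^ ε / S.P i) ∧ ∀ x, ψ x = ch b x * g x

theorem NiceQ.mono {m N : ℕ} [NeZero N] {S : Sys (m + 1)} {c : Fin (m + 1) → ℝ} {Xi ε B B' : ℝ}
    {i : Fin (m + 1)} {ψ : ZMod N → ℂ} (h : NiceQ S c Xi ε B i ψ) (hXi : 0 < Xi) (hB : B ≤ B') :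
    NiceQ S c Xi ε B' i ψ := by
  obtain ⟨q, b, g, h1, h2, h3, h4, h5, h6⟩ := h
  exact ⟨q, b, g, h1, h2.trans hB, h3.trans (by gcongr), h4.mono hB hXi le_rfl, h5, h6⟩

theorem cr_stp_nat (Q q : ℕ) {γ : ℝ} (h : IsN γ) : stp Q q γ = Q * q := by
  unfold stp
  rw [if_pos h]

theorem cr_stp_not (Q q : ℕ) {γ : ℝ} (h : ¬ IsN γ) : stp Q q γ = 1 := by
  unfold stp
  rw [if_neg h]

theorem cr_stp_pos {Q q : ℕ} (hQ : 1 ≤ Q) (hq : 1 ≤ q) (γ : ℝ) : 1 ≤ stp Q q γ := by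
  by_cases h : IsN γ
  · rw [cr_stp_nat _ _ h]
    exact Nat.mul_pos hQ hq
  · rw [cr_stp_not _ _ h]

theorem cr_stp_le {Q q : ℕ} (hQ : 1 ≤ Q) (hq : 1 ≤ q) (γ : ℝ) : stp Q q γ ≤ Q * q := by
  by_cases h : IsN γ
  · rw [cr_stp_nat _ _ h]
  · rw [cr_stp_not _ _ h]
    exact Nat.mul_pos hQ hq

theorem cr_stp_mul (Q q r : ℕ) (γ : ℝ) : ∃ r' : ℕ, stp Q (q * r) γ = stp Q q γ * r' := by
  by_cases h : IsN γ
  · exact ⟨r, by rw [cr_stp_nat _ _ h, cr_stp_nat _ _ h]; ring⟩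
  · exact ⟨1, by rw [cr_stp_not _ _ h, cr_stp_not _ _ h]⟩

theorem cr_IG_mono {m : ℕ} {S : Sys m} {c : Fin m → ℝ} {N : ℕ} {x x' : ℝ} {lam : ℕ}
    (h : IG S c N x lam) (hx : x ≤ x') (hD : 1 ≤ S.D) : IG S c N x' lam :=
  ⟨h.good.mono hx hD, h.Q3.trans (Real.rpow_le_rpow_of_exponent_le hD (by linarith)), h.lam1,
    h.rho, h.Pint, h.prime⟩

set_option maxHeartbeats 1600000 in
theorem cr_step (m : ℕ) (c : Fin (m + 1) → ℝ) (hc : Ex c) (s ε : ℝ) (hε : 0 < ε) (hε1 : ε ≤ 1)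
    (hs : s < c (Fin.last m)) (J : Finset (Fin (m + 1))) (hU : UsJ m c s (ε / 2) J) :
    ∃ x0 : ℝ, 0 < x0 ∧ ∃ C : ℕ, 1 ≤ C ∧ ∃ σ : ℝ, 0 < σ ∧ σ ≤ 1 / 2 ∧ ∃ D0 : ℝ, 4 ≤ D0 ∧
    ∀ (S : Sys (m + 1)) (N : ℕ) [NeZero N] (lam : ℕ), D0 ≤ S.D → IG S c N x0 lam →
    ∀ δ : ℝ, S.D ^ (-σ) ≤ δ → δ ≤ 1 / 2 → (lam : ℝ) ≤ δ⁻¹ →
    ∀ X : ℝ, (S.Q : ℝ) ≤ X → S.Q * S.D ^ (s - σ) ≤ X → X ≤ S.Q * S.D ^ s →
    ∀ (h : ℕ → ℂ) (f0 : ZMod N → ℂ) (f : Fin (m + 1) → ZMod N → ℂ),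
    (∀ k, ‖h k‖ ≤ 1) → Adm δ⁻¹ S.Q f0 → (∀ i, Adm δ⁻¹ (XiOf S X i) (f i)) →
    δ ≤ ‖form S c h f0 f‖ → ∀ i ∈ J, ∃ ψ : ZMod N → ℂ,
      NiceQ S c (XiOf S X i) ε (δ⁻¹ ^ C) i ψ ∧ Adm (δ⁻¹ ^ C) (XiOf S X i) ψ ∧
      δ ^ C ≤ ‖form S c h f0 (Function.update f i ψ)‖ := by
  classical
  obtain ⟨x1, hx1, C1, σ1, hσ1, D1, H⟩ := hU
  have hgap : 0 < (c (Fin.last m) - s) / 2 := by linarith
  refine ⟨min x1 (min (1 / 4) ((c (Fin.last m) - s) / 2)),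
    lt_min hx1 (lt_min (by norm_num) hgap), 19 + 27 * C1, by omega,
    min (σ1 / 9) (1 / (18 * C1 + 2)), lt_min (by positivity) (by positivity), ?_,
    max D1 (max 4 (4 ^ (2 / ε))), (le_max_left _ _).trans (le_max_right _ _), ?_⟩
  · refine (min_le_right _ _).trans ?_
    rw [div_le_div_iff₀ (by positivity) (by norm_num)]
    have : (0 : ℝ) ≤ C1 := Nat.cast_nonneg _
    linarith
  intro S N _ lam hD hIG δ hδσ hδ hlam X hQX hX hX' h f0 f hh hf0 hf hform i hiJ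
  have hG := hIG.good
  set x0 := min x1 (min (1 / 4) ((c (Fin.last m) - s) / 2)) with hx0def
  have hx0a : x0 ≤ x1 := min_le_left _ _
  have hx0b : x0 ≤ 1 / 4 := (min_le_right _ _).trans (min_le_left _ _)
  have hx0c : x0 ≤ (c (Fin.last m) - s) / 2 := (min_le_right _ _).trans (min_le_right _ _)
  have hx00 : 0 < x0 := lt_min hx1 (lt_min (by norm_num) hgap)
  set σ := min (σ1 / 9) (1 / (18 * C1 + 2 : ℝ)) with hσdef
  have hσa : σ ≤ σ1 / 9 := min_le_left _ _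
  have hσb : σ ≤ 1 / (18 * C1 + 2 : ℝ) := min_le_right _ _
  have hσ0 : 0 < σ := lt_min (by positivity) (by positivity)
  have hC10 : (0 : ℝ) ≤ C1 := Nat.cast_nonneg _
  have hσc : σ * (18 * C1 + 2) ≤ 1 := by
    have := mul_le_mul_of_nonneg_right hσb (by positivity : (0 : ℝ) ≤ 18 * C1 + 2)
    rwa [one_div, inv_mul_cancel₀ (by positivity)] at this
  have hσ2 : σ ≤ 1 / 2 := by nlinarith
  have hD4 : 4 ≤ S.D := ((le_max_left _ _).trans (le_max_right _ _)).trans hD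
  have hDbig : (4 : ℝ) ^ (2 / ε) ≤ S.D := ((le_max_right _ _).trans (le_max_right _ _)).trans hD
  have hD1 : 1 ≤ S.D := by linarith
  have hD0 : 0 < S.D := by linarith
  have hDε : 4 ≤ S.D ^ (ε / 2) := by
    calc (4 : ℝ) = (4 ^ (2 / ε)) ^ (ε / 2) := by
          rw [← Real.rpow_mul (by norm_num)]
          have : 2 / ε * (ε / 2) = 1 := by field_simp
          rw [this, Real.rpow_one]
      _ ≤ _ := Real.rpow_le_rpow (by positivity) hDbig (by positivity)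
  have hδ0 : 0 < δ := (Real.rpow_pos_of_pos hD0 _).trans_le hδσ
  have hR2 : 2 ≤ δ⁻¹ := two_le_inv hδ0 hδ
  have hR0 : 0 < δ⁻¹ := inv_pos.mpr hδ0
  -- sizes
  set Xi := XiOf S X i with hXi
  have hQXi : (S.Q : ℝ) ≤ Xi := le_XiOf hQX i
  have hXiN : Xi ≤ N := XiOf_le_N hG hD1 (by linarith) hX' i
  have hQD : S.D ^ 2 ≤ (S.Q : ℝ) := by
    have := hG.Q1
    rwa [Real.rpow_two] at this
  have hQ16 : 16 ≤ (S.Q : ℝ) := by nlinarith
  have hQ1 : 1 ≤ S.Q := by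
    have : (1 : ℝ) ≤ S.Q := by linarith
    exact_mod_cast this
  have hXi0 : 0 < Xi := by linarith
  have hN0 : (0 : ℝ) < N := by exact_mod_cast NeZero.pos N
  have hδD : 1 ≤ δ ^ 2 * S.D := by
    have h3 : S.D ^ (-(1 / 2) : ℝ) ≤ δ := le_trans
      (Real.rpow_le_rpow_of_exponent_le hD1 (by linarith)) hδσ
    have h4 : (S.D ^ (-(1 / 2) : ℝ)) ^ 2 ≤ δ ^ 2 :=
      pow_le_pow_left₀ (Real.rpow_nonneg hD0.le _) h3 2
    have h5 : (S.D ^ (-(1 / 2) : ℝ)) ^ 2 = S.D⁻¹ := by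
      rw [← Real.rpow_natCast, ← Real.rpow_mul hD0.le]
      norm_num
      rw [Real.rpow_neg_one]
    rw [h5] at h4
    calc (1 : ℝ) = S.D⁻¹ * S.D := (inv_mul_cancel₀ hD0.ne').symm
      _ ≤ _ := mul_le_mul_of_nonneg_right h4 hD0.le
  have hYbig : 4 ≤ δ ^ 2 * Xi := by
    have h3 : S.D * 4 ≤ Xi := by nlinarith
    calc (4 : ℝ) ≤ (δ ^ 2 * S.D) * 4 := by linarith
      _ = δ ^ 2 * (S.D * 4) := by ring
      _ ≤ _ := mul_le_mul_of_nonneg_left h3 (sq_nonneg _)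
  set Y : ℕ := ⌊δ ^ 2 * Xi / 4⌋₊ with hYdef
  have hY1 : 1 ≤ Y := Nat.le_floor (by push_cast; linarith)
  have hYle : (Y : ℝ) ≤ δ ^ 2 * Xi / 4 := Nat.floor_le (by positivity)
  have hYge : δ ^ 2 * Xi / 8 ≤ Y := by
    have h3 := Nat.lt_floor_add_one (δ ^ 2 * Xi / 4)
    rw [← hYdef] at h3
    have h4 : (1 : ℝ) ≤ Y := by exact_mod_cast hY1
    linarith
  have hY0 : (0 : ℝ) < Y := by exact_mod_cast hY1
  -- the lengths
  have hPi0 : 0 < S.P i := by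
    refine lt_of_lt_of_le ?_ (hG.P1 i)
    exact mul_pos (by linarith) (Real.rpow_pos_of_pos hD0 _)
  have hδC : δ⁻¹ ^ (9 * C1) ≤ S.D ^ (1 / 2 : ℝ) := by
    have h3 : δ⁻¹ ≤ S.D ^ σ := by
      rw [inv_le_comm₀ hδ0 (Real.rpow_pos_of_pos hD0 _), ← Real.rpow_neg hD0.le]
      exact hδσ
    calc δ⁻¹ ^ (9 * C1) ≤ (S.D ^ σ) ^ (9 * C1) := pow_le_pow_left₀ hR0.le h3 _
      _ = S.D ^ (σ * (9 * C1)) := by
        rw [← Real.rpow_natCast, ← Real.rpow_mul hD0.le]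
        push_cast
        rfl
      _ ≤ S.D ^ (1 / 2 : ℝ) := by
        refine Real.rpow_le_rpow_of_exponent_le hD1 ?_
        nlinarith
  have hlen : ∀ q : ℕ, 1 ≤ q → (q : ℝ) ≤ δ⁻¹ ^ (9 * C1) →
      (stp S.Q q (c i) : ℝ) ≤ S.P i * S.D ^ (-(ε / 2)) := by
    intro q hq1 hq
    have h3 : (stp S.Q q (c i) : ℝ) ≤ S.Q * q := by exact_mod_cast cr_stp_le hQ1 hq1 (c i)
    have h4 : (S.Q : ℝ) * q ≤ S.Q * S.D ^ (1 / 2 : ℝ) :=
      mul_le_mul_of_nonneg_left (hq.trans hδC) (Nat.cast_nonneg _)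
    refine h3.trans (h4.trans ?_)
    have h5 : S.Q * S.D ^ (c i - x0) * S.D ^ (-(ε / 2)) ≤ S.P i * S.D ^ (-(ε / 2)) :=
      mul_le_mul_of_nonneg_right (hG.P1 i) (Real.rpow_nonneg hD0.le _)
    refine le_trans ?_ h5
    rw [mul_assoc, ← Real.rpow_add hD0]
    refine mul_le_mul_of_nonneg_left ?_ (Nat.cast_nonneg _)
    refine Real.rpow_le_rpow_of_exponent_le hD1 ?_
    have := hc.two i
    linarith
  set Lq : ℕ → ℕ := fun q => ⌊S.P i * S.D ^ (-(ε / 2)) / (stp S.Q q (c i) : ℝ)⌋₊ with hLq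
  have hstp0 : ∀ q : ℕ, 1 ≤ q → (0 : ℝ) < stp S.Q q (c i) := by
    intro q hq1
    exact_mod_cast cr_stp_pos hQ1 hq1 (c i)
  have hLq1 : ∀ q : ℕ, 1 ≤ q → (q : ℝ) ≤ δ⁻¹ ^ (9 * C1) → 1 ≤ Lq q := by
    intro q hq1 hq
    refine Nat.le_floor ?_
    push_cast
    rw [le_div_iff₀ (hstp0 q hq1), one_mul]
    exact hlen q hq1 hq
  have hLqle : ∀ q : ℕ, 1 ≤ q →
      (Lq q : ℝ) * (stp S.Q q (c i) : ℝ) ≤ S.P i * S.D ^ (-(ε / 2)) := by
    intro q hq1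
    have h3 : (Lq q : ℝ) ≤ S.P i * S.D ^ (-(ε / 2)) / (stp S.Q q (c i) : ℝ) :=
      Nat.floor_le (div_nonneg (mul_nonneg hPi0.le (Real.rpow_nonneg hD0.le _))
        (Nat.cast_nonneg _))
    rwa [le_div_iff₀ (hstp0 q hq1)] at h3
  have hLqge : ∀ q : ℕ, 1 ≤ q → (q : ℝ) ≤ δ⁻¹ ^ (9 * C1) →
      S.P i * S.D ^ (-(ε / 2)) ≤ 2 * Lq q * (stp S.Q q (c i) : ℝ) := by
    intro q hq1 hq
    have h3 := Nat.lt_floor_add_one (S.P i * S.D ^ (-(ε / 2)) / (stp S.Q q (c i) : ℝ))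
    rw [div_lt_iff₀ (hstp0 q hq1)] at h3
    have h4 : (1 : ℝ) ≤ Lq q := by exact_mod_cast hLq1 q hq1 hq
    have h5 := hstp0 q hq1
    change _ < ((Lq q : ℝ) + 1) * _ at h3
    nlinarith
  -- the dual function
  have hfb : ∀ j, j ≠ i → ∀ x, ‖f j x‖ ≤ 1 := fun j _ x => (hf j).bdd x
  set F := dual S c h f0 f i with hFdef
  have hF : ∀ x, ‖F x‖ ≤ 1 := norm_dual_le S c h hh f0 hf0.bdd f i hfb
  have hpair : ∀ u : ZMod N → ℂ, form S c h f0 (Function.update f i u) = 𝔼 x, u x * F x :=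
    fun u => form_dual S c h f0 f i u
  have hfF : δ ≤ ‖𝔼 x, f i x * F x‖ := by
    rw [← hpair, Function.update_eq_self]
    exact hform
  have hsub : 𝔼 x, ‖f i x - A Y (f i) x‖ ≤ δ / 2 := by
    refine (TV.l1_sub_A (hf i).tv hXi0 Y hY1).trans ?_
    have h3 : 1 / Xi + 1 / (N : ℝ) ≤ 2 / Xi := by
      have h4 : 1 / (N : ℝ) ≤ 1 / Xi := one_div_le_one_div_of_le hXi0 hXiN
      calc 1 / Xi + 1 / (N : ℝ) ≤ 1 / Xi + 1 / Xi := by linarith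
        _ = 2 / Xi := by ring
    calc (Y : ℝ) * δ⁻¹ * (1 / Xi + 1 / N) ≤ (δ ^ 2 * Xi / 4) * δ⁻¹ * (2 / Xi) := by
          gcongr
      _ = δ / 2 := by
          field_simp
          norm_num
  have hw1 : δ ^ 2 / 4 ≤ 𝔼 x, ‖Ab Y F x‖ ^ 2 := w_large (hf i).bdd hF Y hδ0 hfF hsub
  -- the function `w`
  set w := wf Y F with hwdef
  have hwb : ∀ x, ‖w x‖ ≤ 1 := norm_wf_le hF Y
  have hwAdm : Adm (δ⁻¹ ^ 6) Xi w := by
    refine ⟨hwb, ?_⟩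
    have hYXi : (Y : ℝ) ≤ Xi := by
      have h9 : δ ^ 2 ≤ 1 := pow_le_one₀ hδ0.le (by linarith)
      have h10 : δ ^ 2 * Xi ≤ 1 * Xi := mul_le_mul_of_nonneg_right h9 hXi0.le
      linarith
    have h3 := TV.rescale (wf_adm hF Y hY1).tv hY0 hYXi
    refine TV.mono h3 ?_ hXi0 le_rfl
    have h4 : Xi / Y ≤ 8 * δ⁻¹ ^ 2 := by
      rw [div_le_iff₀ hY0]
      calc Xi = 8 * δ⁻¹ ^ 2 * (δ ^ 2 * Xi / 8) := by field_simp
        _ ≤ _ := mul_le_mul_of_nonneg_left hYge (by positivity)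
    have h5 : (16 : ℝ) ≤ δ⁻¹ ^ 4 := by
      calc (16 : ℝ) = 2 ^ 4 := by norm_num
        _ ≤ _ := pow_le_pow_left₀ (by norm_num) hR2 4
    calc 2 * (Xi / Y) ≤ 2 * (8 * δ⁻¹ ^ 2) := by linarith
      _ = 16 * δ⁻¹ ^ 2 := by ring
      _ ≤ δ⁻¹ ^ 4 * δ⁻¹ ^ 2 := mul_le_mul_of_nonneg_right h5 (by positivity)
      _ = δ⁻¹ ^ 6 := by ring
  have hwform : ‖form S c h f0 (Function.update f i w)‖ = 𝔼 x, ‖Ab Y F x‖ ^ 2 := by
    rw [hpair, w_pair, Complex.norm_real, Real.norm_eq_abs, abs_of_nonneg]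
    exact Finset.expect_nonneg fun x _ => sq_nonneg _
  -- Cauchy-Schwarz in `k`
  set g := Function.update f i w with hgdef
  have hgAdm : ∀ j, Adm (δ⁻¹ ^ 6) (XiOf S X j) (g j) := by
    intro j
    by_cases hj : j = i
    · subst hj
      rw [hgdef, Function.update_self]
      exact hwAdm
    · rw [hgdef, Function.update_of_ne hj]
      refine (hf j).mono ?_ (lt_of_lt_of_le (by linarith) (le_XiOf hQX j)) le_rfl
      exact le_self_pow₀ (by linarith) (by norm_num)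
  set a : ZMod N → ℝ := fun y => ‖form S c 1 (fun x => f0 x * conj (f0 (x + y)))
      (fun j x => g j x * conj (g j (x + y)))‖ with hadef
  have hcs : δ ^ 8 ≤ 𝔼 y, a y := by
    have h3 := form_cs S c h hh f0 g
    have h4 : (𝔼 y : ZMod N, form S c 1 (fun x => f0 x * conj (f0 (x + y)))
      (fun i x => g i x * conj (g i (x + y)))).re ≤ 𝔼 y, a y :=
      (Complex.re_le_norm _).trans (norm_expect_le' _ _)
    rw [hwform] at h3
    have h5 : (δ ^ 2 / 4) ^ 2 ≤ (𝔼 x, ‖Ab Y F x‖ ^ 2) ^ 2 :=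
      pow_le_pow_left₀ (by positivity) hw1 2
    have h6 : δ ^ 4 ≤ 1 / 16 := by
      calc δ ^ 4 ≤ (1 / 2) ^ 4 := pow_le_pow_left₀ hδ0.le hδ 4
        _ = 1 / 16 := by norm_num
    calc δ ^ 8 = δ ^ 4 * δ ^ 4 := by ring
      _ ≤ 1 / 16 * δ ^ 4 := mul_le_mul_of_nonneg_right h6 (by positivity)
      _ = (δ ^ 2 / 4) ^ 2 := by ring
      _ ≤ _ := h5.trans (h3.trans h4)
  have hconj : ∀ (B X' : ℝ) (u : ZMod N → ℂ) (y : ZMod N), Adm B X' u →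
      Adm (B + B) X' (fun x => u x * conj (u (x + y))) :=
    fun B X' u y hu => hu.mul (hu.shift y).cnj
  have hpow7 : δ⁻¹ ^ 6 + δ⁻¹ ^ 6 ≤ (δ ^ 9)⁻¹ := by
    rw [← inv_pow]
    calc δ⁻¹ ^ 6 + δ⁻¹ ^ 6 = 2 * δ⁻¹ ^ 6 := by ring
      _ ≤ δ⁻¹ * δ⁻¹ ^ 6 := mul_le_mul_of_nonneg_right hR2 (by positivity)
      _ = δ⁻¹ ^ 7 := by ring
      _ ≤ δ⁻¹ ^ 9 := pow_le_pow_right₀ (by linarith) (by norm_num)
  have hpow1 : δ⁻¹ + δ⁻¹ ≤ (δ ^ 9)⁻¹ := by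
    refine le_trans ?_ hpow7
    have : δ⁻¹ ≤ δ⁻¹ ^ 6 := le_self_pow₀ (by linarith) (by norm_num)
    linarith
  have hlam9 : (lam : ℝ) ≤ (δ ^ 9)⁻¹ := by
    refine hlam.trans (le_trans ?_ hpow1)
    linarith
  -- the sum over the possible steps
  set M : ℕ := ⌊δ⁻¹ ^ (9 * C1)⌋₊ with hMdef
  have hMle : (M : ℝ) ≤ δ⁻¹ ^ (9 * C1) := Nat.floor_le (by positivity)
  set Bq : ℕ → ZMod N → ℝ := fun q y =>
    𝔼 x, ‖Aq (stp S.Q q (c i)) (Lq q) (fun x => w x * conj (w (x + y))) x‖ ^ 2 with hBq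
  have hBq0 : ∀ q y, 0 ≤ Bq q y := fun q y => Finset.expect_nonneg fun x _ => sq_nonneg _
  have hUy : ∀ y, δ ^ 8 / 2 ≤ a y → (δ ^ (9 * C1)) ^ 2 ≤ ∑ q ∈ Icc 1 M, Bq q y := by
    intro y hy
    have h3 : δ ^ 9 ≤ a y := by
      refine le_trans ?_ hy
      calc δ ^ 9 = δ ^ 8 * δ := by ring
        _ ≤ δ ^ 8 * (1 / 2) := mul_le_mul_of_nonneg_left hδ (by positivity)
        _ = δ ^ 8 / 2 := by ring
    have h4 : S.D ^ (-σ1) ≤ δ ^ 9 := by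
      calc S.D ^ (-σ1) = (S.D ^ (-(σ1 / 9))) ^ 9 := by
            rw [← Real.rpow_natCast, ← Real.rpow_mul hD0.le]
            congr 1
            push_cast
            ring
        _ ≤ δ ^ 9 := by
            refine pow_le_pow_left₀ (Real.rpow_nonneg hD0.le _) (le_trans ?_ hδσ) 9
            exact Real.rpow_le_rpow_of_exponent_le hD1 (by linarith)
    have h5 : δ ^ 9 ≤ 1 / 2 := by
      calc δ ^ 9 ≤ δ ^ 1 := pow_le_pow_of_le_one hδ0.le (by linarith) (by norm_num)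
        _ ≤ 1 / 2 := by rw [pow_one]; exact hδ
    have h6 : S.Q * S.D ^ (s - σ1) ≤ X := by
      refine le_trans (mul_le_mul_of_nonneg_left ?_ (Nat.cast_nonneg _)) hX
      refine Real.rpow_le_rpow_of_exponent_le hD1 ?_
      linarith
    have hQ0 : (0 : ℝ) < S.Q := by linarith
    obtain ⟨q, hq1, hq, h7⟩ := H S N lam ((le_max_left _ _).trans hD) (cr_IG_mono hIG hx0a hD1)
      (δ ^ 9) h4 h5 hlam9 X
      hQX h6 (fun x => f0 x * conj (f0 (x + y))) (fun j x => g j x * conj (g j (x + y)))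
      ((hconj _ _ _ y hf0).mono hpow1 hQ0 le_rfl)
      (fun j => (hconj _ _ _ y (hgAdm j)).mono hpow7 hQ0 (le_XiOf hQX j))
      (by
        have h8 := (hconj _ _ _ y (hgAdm (Fin.last m)))
        have h9 : XiOf S X (Fin.last m) = X := if_pos rfl
        rw [h9] at h8
        exact h8.mono hpow7 (by linarith) le_rfl)
      h3
    have hq' : (q : ℝ) ≤ δ⁻¹ ^ (9 * C1) := by
      rw [← inv_pow, ← pow_mul] at hq
      exact hq
    have hqM : q ∈ Icc 1 M := Finset.mem_Icc.mpr ⟨hq1, Nat.le_floor hq'⟩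
    have h7' := h7 i hiJ (Lq q) (hLq1 q hq1 hq') (hLqle q hq1)
    have h8 : (fun x => g i x * conj (g i (x + y))) = fun x => w x * conj (w (x + y)) := by
      funext x
      rw [hgdef, Function.update_self]
    have h9 : δ ^ (9 * C1) ≤ nrm (Aq (stp S.Q q (c i)) (Lq q) (fun x => w x * conj (w (x + y)))) := by
      rw [← h8, pow_mul]
      exact h7'
    calc (δ ^ (9 * C1)) ^ 2 ≤
          (nrm (Aq (stp S.Q q (c i)) (Lq q) (fun x => w x * conj (w (x + y))))) ^ 2 :=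
          pow_le_pow_left₀ (by positivity) h9 2
      _ ≤ Bq q y := sq_expect_le _ _
      _ ≤ _ := Finset.single_le_sum (f := fun q => Bq q y) (fun q _ => hBq0 q y) hqM
  have hpop : δ ^ 8 / 2 * (δ ^ (9 * C1)) ^ 2 ≤ 𝔼 y, ∑ q ∈ Icc 1 M, Bq q y := by
    refine popular Finset.univ_nonempty (a := a) ?_ ?_ (by positivity) (by positivity) hcs
      fun y _ => hUy y
    · intro y _
      refine norm_form_le_one S c 1 (fun k => by simp) _ ?_ _ ?_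
      · intro x
        rw [norm_mul, RCLike.norm_conj]
        exact mul_le_one₀ (hf0.bdd x) (norm_nonneg _) (hf0.bdd _)
      · intro j x
        rw [norm_mul, RCLike.norm_conj]
        exact mul_le_one₀ ((hgAdm j).bdd x) (norm_nonneg _) ((hgAdm j).bdd _)
    · intro y _
      exact Finset.sum_nonneg fun q _ => hBq0 q y
  set κ := δ ^ (9 + 27 * C1) with hκdef
  have hκ0 : 0 < κ := by positivity
  have hκ1 : κ ≤ 1 := pow_le_one₀ hδ0.le (by linarith)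
  obtain ⟨q, hqM, hκ⟩ : ∃ q ∈ Icc 1 M, κ ≤ 𝔼 y, Bq q y := by
    by_contra hcon
    push Not at hcon
    rw [Finset.expect_sum_comm] at hpop
    have h3 : ∑ q ∈ Icc 1 M, 𝔼 y, Bq q y ≤ ∑ _q ∈ Icc 1 M, κ :=
      Finset.sum_le_sum fun q hq => (hcon q hq).le
    rw [Finset.sum_const, Nat.card_Icc, Nat.add_sub_cancel, nsmul_eq_mul] at h3
    have h4 : (M : ℝ) * κ ≤ δ⁻¹ ^ (9 * C1) * κ := mul_le_mul_of_nonneg_right hMle hκ0.le
    have h5 : δ⁻¹ ^ (9 * C1) * κ = δ * (δ ^ 8 * (δ ^ (9 * C1)) ^ 2) := by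
      rw [hκdef, inv_pow]
      field_simp
      ring
    rcases Nat.eq_zero_or_pos M with hM0 | hM0
    · rw [hM0] at hpop
      simp only [Icc_self, zero_lt_one, Finset.Icc_eq_empty_of_lt, Finset.sum_empty] at hpop
      have : 0 < δ ^ 8 / 2 * (δ ^ (9 * C1)) ^ 2 := by positivity
      linarith
    · have h6 : ∑ q ∈ Icc 1 M, 𝔼 y, Bq q y < ∑ _q ∈ Icc 1 M, κ :=
        Finset.sum_lt_sum_of_nonempty ⟨1, Finset.mem_Icc.mpr ⟨le_rfl, hM0⟩⟩ hcon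
      rw [Finset.sum_const, Nat.card_Icc, Nat.add_sub_cancel, nsmul_eq_mul] at h6
      have h7 : 0 < δ ^ 8 * (δ ^ (9 * C1)) ^ 2 := by positivity
      have h8 : δ * (δ ^ 8 * (δ ^ (9 * C1)) ^ 2) ≤ 1 / 2 * (δ ^ 8 * (δ ^ (9 * C1)) ^ 2) :=
        mul_le_mul_of_nonneg_right hδ h7.le
      linarith
  have hq1 : 1 ≤ q := (Finset.mem_Icc.mp hqM).1
  have hq : (q : ℝ) ≤ δ⁻¹ ^ (9 * C1) := by
    refine le_trans ?_ hMle
    exact_mod_cast (Finset.mem_Icc.mp hqM).2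
  set st := stp S.Q q (c i) with hst
  set L := Lq q with hL
  have hL1 : 1 ≤ L := hLq1 q hq1 hq
  have hL0 : (0 : ℝ) < L := by exact_mod_cast hL1
  have hst0 : (0 : ℝ) < st := hstp0 q hq1
  obtain ⟨b, hfrb, hb⟩ := cr_exists_char hF Y hY1 st L hκ0 hκ1 hκ
  obtain ⟨y, hy⟩ := cr_exists_shift st Y L b (by positivity : 0 < κ / 2) hb
  have hfr : |fr b| ≤ δ⁻¹ ^ (14 + 27 * C1) / Xi := by
    refine hfrb.trans ?_
    rw [div_le_div_iff₀ hY0 hXi0]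
    have h3 : (8 : ℝ) ≤ δ⁻¹ ^ 3 := by
      calc (8 : ℝ) = 2 ^ 3 := by norm_num
        _ ≤ _ := pow_le_pow_left₀ (by norm_num) hR2 3
    calc κ⁻¹ * Xi = κ⁻¹ * (8 * δ⁻¹ ^ 2 * (δ ^ 2 * Xi / 8)) := by field_simp
      _ ≤ κ⁻¹ * (δ⁻¹ ^ 3 * δ⁻¹ ^ 2 * Y) := by
        refine mul_le_mul_of_nonneg_left ?_ (by positivity)
        exact mul_le_mul (mul_le_mul_of_nonneg_right h3 (by positivity)) hYge (by positivity)
          (by positivity)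
      _ = δ⁻¹ ^ (14 + 27 * C1) * Y := by
        rw [hκdef, ← inv_pow]
        ring
  have hpi : 2 * Real.pi ≤ 8 := by linarith [Real.pi_le_four]
  have h2pi : 2 * Real.pi * |fr b| ≤ δ⁻¹ ^ (17 + 27 * C1) / Xi := by
    have h3 : (8 : ℝ) ≤ δ⁻¹ ^ 3 := by
      calc (8 : ℝ) = 2 ^ 3 := by norm_num
        _ ≤ _ := pow_le_pow_left₀ (by norm_num) hR2 3
    calc 2 * Real.pi * |fr b| ≤ 8 * (δ⁻¹ ^ (14 + 27 * C1) / Xi) :=
          mul_le_mul hpi hfr (abs_nonneg _) (by norm_num)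
      _ ≤ δ⁻¹ ^ 3 * (δ⁻¹ ^ (14 + 27 * C1) / Xi) :=
          mul_le_mul_of_nonneg_right h3 (by positivity)
      _ = _ := by ring
  have hchAdm : Adm (δ⁻¹ ^ (17 + 27 * C1)) Xi (ch b) := by
    refine ⟨fun x => (norm_ch b x).le, ?_⟩
    exact tv_of_step (fun x => ch_step b x) h2pi (by positivity)
  have hpow18 : δ⁻¹ ^ 6 + δ⁻¹ ^ (17 + 27 * C1) ≤ δ⁻¹ ^ (18 + 27 * C1) := by
    have h3 : δ⁻¹ ^ 6 ≤ δ⁻¹ ^ (17 + 27 * C1) := pow_le_pow_right₀ (by linarith) (by omega)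
    calc δ⁻¹ ^ 6 + δ⁻¹ ^ (17 + 27 * C1) ≤ 2 * δ⁻¹ ^ (17 + 27 * C1) := by linarith
      _ ≤ δ⁻¹ * δ⁻¹ ^ (17 + 27 * C1) := mul_le_mul_of_nonneg_right hR2 (by positivity)
      _ = _ := by ring
  have hsAdm : Adm (δ⁻¹ ^ (18 + 27 * C1)) Xi (sfq st Y L F b) := by
    have h3 : Adm (δ⁻¹ ^ 6 + δ⁻¹ ^ (17 + 27 * C1)) Xi (fun x => wf Y F x * conj (ch b x)) :=
      hwAdm.mul hchAdm.cnj
    have h4 := cr_adm_Aqb (cr_adm_Aq h3 st L) st L
    exact h4.mono hpow18 hXi0 le_rfl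
  set cc : ZMod N → ℂ := fun x => ch b y * sfq st Y L F b (x + y) with hcc
  have hccAdm : Adm (δ⁻¹ ^ (18 + 27 * C1)) Xi cc := by
    have h3 := hsAdm.shift y
    refine ⟨fun x => ?_, ?_⟩
    · rw [hcc, norm_mul, norm_ch, one_mul]
      exact h3.bdd x
    · have h4 := h3.tv.smul (ch b y)
      rw [norm_ch, one_mul] at h4
      exact h4
  have hψ : ∀ x, ch b (x + y) * sfq st Y L F b (x + y) = ch b x * cc x := by
    intro x
    rw [hcc, ch_add]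
    ring
  have hpow19 : δ⁻¹ ^ (17 + 27 * C1) + δ⁻¹ ^ (18 + 27 * C1) ≤ δ⁻¹ ^ (19 + 27 * C1) := by
    have h3 : δ⁻¹ ^ (17 + 27 * C1) ≤ δ⁻¹ ^ (18 + 27 * C1) :=
      pow_le_pow_right₀ (by linarith) (by omega)
    calc δ⁻¹ ^ (17 + 27 * C1) + δ⁻¹ ^ (18 + 27 * C1) ≤ 2 * δ⁻¹ ^ (18 + 27 * C1) := by linarith
      _ ≤ δ⁻¹ * δ⁻¹ ^ (18 + 27 * C1) := mul_le_mul_of_nonneg_right hR2 (by positivity)
      _ = _ := by ring
  refine ⟨fun x => ch b x * cc x, ⟨q, b, cc, hq1, ?_, ?_, ?_, ?_, fun x => rfl⟩, ?_, ?_⟩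
  · refine hq.trans (pow_le_pow_right₀ (by linarith) (by omega))
  · refine hfr.trans ?_
    have h3 : δ⁻¹ ^ (14 + 27 * C1) ≤ δ⁻¹ ^ (19 + 27 * C1) :=
      pow_le_pow_right₀ (by linarith) (by omega)
    gcongr
  · exact hccAdm.mono (pow_le_pow_right₀ (by linarith) (by omega)) hXi0 le_rfl
  · intro x t
    change ‖ch b y * sfq st Y L F b (x + ((st * t : ℤ) : ZMod N) + y) -
      ch b y * sfq st Y L F b (x + y)‖ ≤ _
    rw [← mul_sub, norm_mul, norm_ch, one_mul]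
    have h3 : x + ((st * t : ℤ) : ZMod N) + y = x + y + ((st * t : ℤ) : ZMod N) := by ring
    rw [h3]
    have h4 := cr_Aqb_lip (f := Aq st L (fun x => wf Y F x * conj (ch b x)))
      (cr_norm_Aq_le (fun x => norm_wch_le hF Y b x) st L) st L (x + y) t
    refine h4.trans ?_
    have h5 := hLqge q hq1 hq
    have h6 : S.P i ≤ 2 * L * st * S.D ^ (ε / 2) := by
      have h7 : S.P i = S.P i * S.D ^ (-(ε / 2)) * S.D ^ (ε / 2) := by
        rw [mul_assoc, ← Real.rpow_add hD0, neg_add_cancel, Real.rpow_zero, mul_one]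
      rw [h7]
      exact mul_le_mul_of_nonneg_right h5 (Real.rpow_nonneg hD0.le _)
    have h8 : S.D ^ (ε / 2) * S.D ^ (ε / 2) = S.D ^ ε := by
      rw [← Real.rpow_add hD0]
      congr 1
      ring
    have h9 : 2 / (L : ℝ) ≤ st * S.D ^ ε / S.P i := by
      rw [div_le_div_iff₀ hL0 hPi0]
      have h10 : 0 < S.D ^ (ε / 2) := Real.rpow_pos_of_pos hD0 _
      have h11 : 0 ≤ L * st * S.D ^ (ε / 2) := by positivity
      calc 2 * S.P i ≤ 2 * (2 * L * st * S.D ^ (ε / 2)) := by linarith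
        _ = 4 * (L * st * S.D ^ (ε / 2)) := by ring
        _ ≤ S.D ^ (ε / 2) * (L * st * S.D ^ (ε / 2)) := mul_le_mul_of_nonneg_right hDε h11
        _ = st * (S.D ^ (ε / 2) * S.D ^ (ε / 2)) * L := by ring
        _ = _ := by rw [h8]
    calc |(t : ℝ)| * (2 / L) ≤ |(t : ℝ)| * (st * S.D ^ ε / S.P i) :=
          mul_le_mul_of_nonneg_left h9 (abs_nonneg _)
      _ = _ := by ring
  · exact (hchAdm.mul hccAdm).mono hpow19 hXi0 le_rfl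
  · rw [hpair]
    have h3 : 𝔼 x, ch b x * cc x * F x =
        𝔼 x, (ch b (x + y) * sfq st Y L F b (x + y)) * F x :=
      Finset.expect_congr rfl fun x _ => by rw [hψ x]
    rw [h3]
    refine le_trans ?_ hy
    calc δ ^ (19 + 27 * C1) ≤ δ ^ (10 + 27 * C1) :=
          pow_le_pow_of_le_one hδ0.le (by linarith) (by omega)
      _ = κ * δ := by rw [hκdef]; ring
      _ ≤ κ * (1 / 2) := mul_le_mul_of_nonneg_left hδ hκ0.le
      _ = κ / 2 := by ring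

theorem cr_stages (m : ℕ) (c : Fin (m + 1) → ℝ) (hc : Ex c) (s ε : ℝ) (hε : 0 < ε) (hε1 : ε ≤ 1)
    (hs : s < c (Fin.last m)) (J : Finset (Fin (m + 1))) (hU : UsJ m c s (ε / 2) J)
    (J' : Finset (Fin (m + 1))) : J' ⊆ J →
    ∃ x0 : ℝ, 0 < x0 ∧ ∃ C : ℕ, 1 ≤ C ∧ ∃ σ : ℝ, 0 < σ ∧ σ ≤ 1 / 2 ∧ ∃ D0 : ℝ, 4 ≤ D0 ∧
    ∀ (S : Sys (m + 1)) (N : ℕ) [NeZero N] (lam : ℕ), D0 ≤ S.D → IG S c N x0 lam →
    ∀ δ : ℝ, S.D ^ (-σ) ≤ δ → δ ≤ 1 / 2 → (lam : ℝ) ≤ δ⁻¹ →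
    ∀ X : ℝ, (S.Q : ℝ) ≤ X → S.Q * S.D ^ (s - σ) ≤ X → X ≤ S.Q * S.D ^ s →
    ∀ (h : ℕ → ℂ) (f0 : ZMod N → ℂ) (f : Fin (m + 1) → ZMod N → ℂ),
    (∀ k, ‖h k‖ ≤ 1) → Adm δ⁻¹ S.Q f0 → (∀ i, Adm δ⁻¹ (XiOf S X i) (f i)) →
    δ ≤ ‖form S c h f0 f‖ → ∃ f' : Fin (m + 1) → ZMod N → ℂ,
      (∀ i ∈ J', NiceQ S c (XiOf S X i) ε (δ⁻¹ ^ C) i (f' i)) ∧ (∀ i, i ∉ J' → f' i = f i) ∧
      (∀ i, Adm (δ⁻¹ ^ C) (XiOf S X i) (f' i)) ∧ δ ^ C ≤ ‖form S c h f0 f'‖ := by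
  classical
  induction J' using Finset.induction_on with
  | empty =>
    intro _
    refine ⟨1, one_pos, 1, le_rfl, 1 / 2, by norm_num, le_rfl, 4, le_rfl, ?_⟩
    intro S N _ lam hD hG δ hδσ hδ hlam X hQX hX hX' h f0 f hh hf0 hf hform
    refine ⟨f, fun i hi => absurd hi (Finset.notMem_empty i), fun i _ => rfl, ?_, ?_⟩
    · intro i
      rw [pow_one]
      exact hf i
    · rw [pow_one]
      exact hform
  | insert i J' hi ih =>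
    intro hJ'
    have hiJ : i ∈ J := hJ' (Finset.mem_insert_self i J')
    obtain ⟨x1, hx1, C1, hC1, σ1, hσ1, hσ1', D1, hD1, H1⟩ :=
      ih (fun j hj => hJ' (Finset.mem_insert_of_mem hj))
    obtain ⟨x2, hx2, C2, hC2, σ2, hσ2, hσ2', D2, hD2, H2⟩ := cr_step m c hc s ε hε hε1 hs J hU
    have hC1r : (1 : ℝ) ≤ C1 := by exact_mod_cast hC1
    have hC10 : (0 : ℝ) < C1 := by linarith
    refine ⟨min x1 x2, lt_min hx1 hx2, C1 * C2,
      Nat.mul_pos hC1 hC2, min σ1 (σ2 / C1), lt_min hσ1 (by positivity),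
      (min_le_left _ _).trans hσ1', max D1 D2, hD1.trans (le_max_left _ _), ?_⟩
    intro S N _ lam hD hG δ hδσ hδ hlam X hQX hX hX' h f0 f hh hf0 hf hform
    have hDa : D1 ≤ S.D := (le_max_left _ _).trans hD
    have hDb : D2 ≤ S.D := (le_max_right _ _).trans hD
    have hD1' : 1 ≤ S.D := by linarith
    have hD0 : 0 < S.D := by linarith
    have hδ0 : 0 < δ := (Real.rpow_pos_of_pos hD0 _).trans_le hδσ
    have hR2 : 2 ≤ δ⁻¹ := two_le_inv hδ0 hδ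
    have hm1 : min σ1 (σ2 / C1) ≤ σ1 := min_le_left _ _
    have hm2 : min σ1 (σ2 / C1) ≤ σ2 / C1 := min_le_right _ _
    have hm3 : σ2 / C1 ≤ σ2 := div_le_self hσ2.le hC1r
    have hQ0 : (0 : ℝ) < S.Q := by
      have := hG.good.Q1
      exact (Real.rpow_pos_of_pos hD0 _).trans_le this
    have hXi0 : ∀ j, 0 < XiOf S X j := fun j => hQ0.trans_le (le_XiOf hQX j)
    have hXσ : ∀ σ', min σ1 (σ2 / C1) ≤ σ' → S.Q * S.D ^ (s - σ') ≤ X := by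
      intro σ' hσ'
      refine le_trans (mul_le_mul_of_nonneg_left ?_ (Nat.cast_nonneg _)) hX
      exact Real.rpow_le_rpow_of_exponent_le hD1' (by linarith)
    obtain ⟨f', hN', hE', hA', hF'⟩ := H1 S N lam hDa (cr_IG_mono hG (min_le_left _ _) hD1') δ
      ((Real.rpow_le_rpow_of_exponent_le hD1' (by linarith)).trans hδσ) hδ hlam X hQX
      (hXσ σ1 hm1) hX' h f0 f hh hf0 hf hform
    have hinv : (δ ^ C1)⁻¹ = δ⁻¹ ^ C1 := (inv_pow δ C1).symm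
    have hδ' : S.D ^ (-σ2) ≤ δ ^ C1 := by
      calc S.D ^ (-σ2) = (S.D ^ (-(σ2 / C1))) ^ C1 := by
            rw [← Real.rpow_natCast, ← Real.rpow_mul hD0.le]
            congr 1
            field_simp
        _ ≤ δ ^ C1 := by
            refine pow_le_pow_left₀ (Real.rpow_nonneg hD0.le _) (le_trans ?_ hδσ) C1
            exact Real.rpow_le_rpow_of_exponent_le hD1' (by linarith)
    have hδ'' : δ ^ C1 ≤ 1 / 2 := by
      calc δ ^ C1 ≤ δ ^ 1 := pow_le_pow_of_le_one hδ0.le (by linarith) hC1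
        _ ≤ 1 / 2 := by rw [pow_one]; exact hδ
    have hself : δ⁻¹ ≤ δ⁻¹ ^ C1 := le_self_pow₀ (by linarith) (by omega)
    obtain ⟨ψ, hψ1, hψ2, hψ3⟩ := H2 S N lam hDb (cr_IG_mono hG (min_le_right _ _) hD1') (δ ^ C1)
      hδ' hδ'' (by rw [hinv]; exact hlam.trans hself) X
      hQX (hXσ σ2 (hm2.trans hm3)) hX' h f0 f' hh
      (hf0.mono (by
        rw [hinv]
        exact hself) hQ0 le_rfl)
      (fun j => by
        rw [hinv]
        exact hA' j) hF' i hiJ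
    have hpow : (δ ^ C1)⁻¹ ^ C2 = δ⁻¹ ^ (C1 * C2) := by rw [hinv, ← pow_mul]
    rw [hpow] at hψ1 hψ2
    have hle : δ⁻¹ ^ C1 ≤ δ⁻¹ ^ (C1 * C2) :=
      pow_le_pow_right₀ (by linarith) (Nat.le_mul_of_pos_right C1 hC2)
    refine ⟨Function.update f' i ψ, ?_, ?_, ?_, ?_⟩
    · intro j hj
      by_cases hji : j = i
      · subst hji
        rw [Function.update_self]
        exact hψ1
      · rw [Function.update_of_ne hji]
        exact (hN' j ((Finset.mem_insert.mp hj).resolve_left hji)).mono (hXi0 j) hle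
    · intro j hj
      rw [Finset.mem_insert, not_or] at hj
      rw [Function.update_of_ne hj.1]
      exact hE' j hj.2
    · intro j
      by_cases hji : j = i
      · subst hji
        rw [Function.update_self]
        exact hψ2
      · rw [Function.update_of_ne hji]
        exact (hA' j).mono hle (hXi0 j) le_rfl
    · rw [pow_mul]
      exact hψ3

theorem char_rep (m : ℕ) (c : Fin (m + 1) → ℝ) (hc : Ex c) (s : ℝ) (hs0 : 0 ≤ s)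
    (hs : s < c (Fin.last m)) (J : Finset (Fin (m + 1)))
    (hU : ∀ ε : ℝ, 0 < ε → UsJ m c s ε J) : ∀ ε : ℝ, 0 < ε →
    ∃ x0 : ℝ, 0 < x0 ∧ ∃ C : ℕ, ∃ σ : ℝ, 0 < σ ∧ ∃ D0 : ℝ,
    ∀ (S : Sys (m + 1)) (N : ℕ) [NeZero N] (lam : ℕ), D0 ≤ S.D → IG S c N x0 lam →
    ∀ δ : ℝ, S.D ^ (-σ) ≤ δ → δ ≤ 1 / 2 → (lam : ℝ) ≤ δ⁻¹ →
    ∀ X : ℝ, (S.Q : ℝ) ≤ X → S.Q * S.D ^ (s - σ) ≤ X → X ≤ S.Q * S.D ^ s →
    ∀ (h : ℕ → ℂ) (f0 : ZMod N → ℂ) (f : Fin (m + 1) → ZMod N → ℂ),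
    (∀ k, ‖h k‖ ≤ 1) → Adm δ⁻¹ S.Q f0 → (∀ i, Adm δ⁻¹ S.Q (f i)) →
    Adm δ⁻¹ X (f (Fin.last m)) →
    δ ≤ ‖form S c h f0 f‖ →
    ∃ q : ℕ, 1 ≤ q ∧ (q : ℝ) ≤ δ⁻¹ ^ C ∧
    ∃ (b : Fin (m + 1) → ℤ) (cc : Fin (m + 1) → ZMod N → ℂ),
      (∀ i ∈ J, |(b i : ℝ) / N| ≤ δ⁻¹ ^ C / S.Q ∧ (i = Fin.last m → |(b i : ℝ) / N| ≤ δ⁻¹ ^ C / X) ∧
        Adm (δ⁻¹ ^ C) S.Q (cc i) ∧
        ∀ (x : ZMod N) (t : ℤ), ‖cc i (x + ((stp S.Q q (c i) * t : ℤ) : ZMod N)) - cc i x‖ ≤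
          |(t : ℝ)| * (stp S.Q q (c i) : ℝ) * S.D ^ ε / S.P i) ∧
      δ ^ C ≤ ‖form S c h f0 (fun i x => if i ∈ J then e ((b i : ℝ) / N * x.val) * cc i x
        else f i x)‖ := by
  classical
  intro ε0 hε0
  set ε := min ε0 1 with hεdef
  have hε : 0 < ε := lt_min hε0 one_pos
  have hε1 : ε ≤ 1 := min_le_right _ _
  have hεε0 : ε ≤ ε0 := min_le_left _ _
  obtain ⟨x0, hx0, C, hC, σ, hσ, hσ', D0, hD0, H⟩ :=
    cr_stages m c hc s ε hε hε1 hs J (hU (ε / 2) (by linarith)) J (Finset.Subset.refl J)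
  refine ⟨x0, hx0, C * (J.card + 1), σ, hσ, D0, ?_⟩
  intro S N _ lam hD hG δ hδσ hδ hlam X hQX hX hX' h f0 f hh hf0 hf hfl hform
  have hD4 : 4 ≤ S.D := hD0.trans hD
  have hD1 : 1 ≤ S.D := by linarith
  have hDpos : 0 < S.D := by linarith
  have hδ0 : 0 < δ := (Real.rpow_pos_of_pos hDpos _).trans_le hδσ
  have hR2 : 2 ≤ δ⁻¹ := two_le_inv hδ0 hδ
  have hQ0 : (0 : ℝ) < S.Q := (Real.rpow_pos_of_pos hDpos _).trans_le hG.good.Q1
  have hX0 : 0 < X := hQ0.trans_le hQX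
  have hXi0 : ∀ j, 0 < XiOf S X j := fun j => hQ0.trans_le (le_XiOf hQX j)
  obtain ⟨f', hN', hE', -, hF'⟩ := H S N lam hD hG δ hδσ hδ hlam X hQX hX hX' h f0 f hh hf0
    (fun i => by
      unfold XiOf
      split_ifs with hi
      · rw [hi]; exact hfl
      · exact hf i) hform
  have hch : ∀ i, ∃ (q : ℕ) (b : ZMod N) (g : ZMod N → ℂ), 1 ≤ q ∧ (i ∈ J → (q : ℝ) ≤ δ⁻¹ ^ C ∧
      |fr b| ≤ δ⁻¹ ^ C / XiOf S X i ∧ Adm (δ⁻¹ ^ C) (XiOf S X i) g ∧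
      (∀ (x : ZMod N) (t : ℤ), ‖g (x + ((stp S.Q q (c i) * t : ℤ) : ZMod N)) - g x‖ ≤
        |(t : ℝ)| * (stp S.Q q (c i) : ℝ) * S.D ^ ε / S.P i) ∧ ∀ x, f' i x = ch b x * g x) := by
    intro i
    by_cases hi : i ∈ J
    · obtain ⟨q, b, g, h1, h2, h3, h4, h5, h6⟩ := hN' i hi
      exact ⟨q, b, g, h1, fun _ => ⟨h2, h3, h4, h5, h6⟩⟩
    · exact ⟨1, 0, 0, le_rfl, fun h => absurd h hi⟩
  choose q b g hq1 hall using hch
  have hRC : 1 ≤ δ⁻¹ ^ C := one_le_pow₀ (by linarith)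
  have hCle : δ⁻¹ ^ C ≤ δ⁻¹ ^ (C * (J.card + 1)) :=
    pow_le_pow_right₀ (by linarith) (Nat.le_mul_of_pos_right C (Nat.succ_pos _))
  have hq1' : 1 ≤ ∏ j ∈ J, q j := Nat.succ_le_of_lt (Finset.prod_pos fun j _ => hq1 j)
  refine ⟨∏ j ∈ J, q j, hq1', ?_, fun i => (b i).valMinAbs, g, ?_, ?_⟩
  · push_cast
    calc ∏ j ∈ J, (q j : ℝ) ≤ ∏ _j ∈ J, δ⁻¹ ^ C :=
          Finset.prod_le_prod (fun j _ => Nat.cast_nonneg _) fun j hj => (hall j hj).1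
      _ = (δ⁻¹ ^ C) ^ J.card := by rw [Finset.prod_const]
      _ ≤ (δ⁻¹ ^ C) ^ (J.card + 1) := pow_le_pow_right₀ hRC (Nat.le_succ _)
      _ = _ := by rw [← pow_mul]
  · intro i hi
    obtain ⟨-, h2, h3, h4, -⟩ := hall i hi
    have hfr : |((b i).valMinAbs : ℝ) / N| ≤ δ⁻¹ ^ C / XiOf S X i := h2
    refine ⟨?_, ?_, ?_, ?_⟩
    · refine hfr.trans ?_
      have h5 := le_XiOf hQX i
      gcongr
    · intro hlast
      refine hfr.trans ?_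
      have h5 : XiOf S X i = X := by
        unfold XiOf
        rw [if_pos hlast]
      rw [h5]
      gcongr
    · exact h3.mono hCle hQ0 (le_XiOf hQX i)
    · intro x t
      have hPi0 : 0 < S.P i := by
        refine lt_of_lt_of_le ?_ (hG.good.P1 i)
        exact mul_pos hQ0 (Real.rpow_pos_of_pos hDpos _)
      have h5 : ∏ j ∈ J, q j = q i * ∏ j ∈ J.erase i, q j :=
        (Finset.mul_prod_erase J q hi).symm
      obtain ⟨r, hr⟩ := cr_stp_mul S.Q (q i) (∏ j ∈ J.erase i, q j) (c i)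
      rw [h5, hr]
      have h6 : ((stp S.Q (q i) (c i) * r : ℕ) : ℤ) * t = (stp S.Q (q i) (c i) : ℤ) * (r * t) := by
        push_cast
        ring
      rw [h6]
      refine (h4 x (r * t)).trans ?_
      have h7 : S.D ^ ε ≤ S.D ^ ε0 := Real.rpow_le_rpow_of_exponent_le hD1 hεε0
      have h8 : |((r * t : ℤ) : ℝ)| = r * |(t : ℝ)| := by
        push_cast
        rw [abs_mul, Nat.abs_cast]
      rw [h8]
      push_cast
      calc (r : ℝ) * |(t : ℝ)| * (stp S.Q (q i) (c i) : ℝ) * S.D ^ ε / S.P i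
          ≤ (r : ℝ) * |(t : ℝ)| * (stp S.Q (q i) (c i) : ℝ) * S.D ^ ε0 / S.P i := by
            gcongr
        _ = _ := by ring
  · have hfe : (fun (i : Fin (m + 1)) (x : ZMod N) => if i ∈ J then
        e (((b i).valMinAbs : ℝ) / N * x.val) * g i x else f i x) = f' := by
      funext i x
      split_ifs with hi
      · rw [(hall i hi).2.2.2.2 x]
        congr 1
        have h1 := ch_nat (b i) x.val
        rw [ZMod.natCast_zmod_val] at h1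
        rw [h1]
        rfl
      · rw [hE' i hi]
    rw [hfe]
    refine le_trans ?_ hF'
    exact pow_le_pow_of_le_one hδ0.le (by linarith)
      (Nat.le_mul_of_pos_right C (Nat.succ_pos _))

end

end Pool.Agent.Helper67.NX2
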