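import Pool.Agent.Helper81.NX2.GmMomentB
import Pool.Agent.Helper72.NX2.LemL

/-!
# Project NX2, module B11: moments of the model
-/

set_option autoImplicit false

open Finset
open scoped BigOperators ComplexConjugate

namespace Pool.Agent.Helper67.NX2

open Pool.Agent.Helper57.NX

noncomputable section

/-! ## B11 moments of the model -/
theorem gm_moment (k r0 r1 : ℕ) (hr1 : 1 ≤ r1) : ∃ C : ℕ, ∀ (F : ℕ → ℝ) (K b j R : ℕ)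
    (PP : Finset ℕ) (B0 V : ℝ), 1 ≤ K → 2 ≤ R → (∀ p ∈ PP, p.Prime ∧ p ≤ R ∧ ¬ p ∣ K) →
    (∀ x, |F x| ≤ B0) → 0 ≤ V →
    (∀ (κ : ℕ) (B : Finset ℕ) (ω : ℕ → ℕ), B ⊆ PP → B.card ≤ r0 →
      ∑ E ∈ (PP \ B).powerset.filter (fun E => (B ∪ E).card ≤ r0),
        𝔼 t ∈ range (∏ p ∈ E, p ^ r1),
          DS F K r1 b j (B ∪ E) κ (fun p => if p ∈ B then ω p else t) ^ 2 ≤ V ^ 2) →
    (∑ x ∈ bl b j, gm F K r0 r1 b PP x ^ (2 * k)) / 2 ^ b ≤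
      C * V ^ (2 * k) + B0 ^ (2 * k) * ((K * R : ℕ) : ℝ) ^ C / 2 ^ b :=
  gm_moment_of k r0 r1 hr1 (lemL (2 * k) r0)

end

end Pool.Agent.Helper67.NX2
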