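import Pool.Agent.Helper61.NX.One
import Pool.Agent.Helper67.NX2.Defs

/-!
# Project NX2, module A6, first part: characters and averages along progressions
-/

set_option autoImplicit false

open Finset
open scoped BigOperators ComplexConjugate

namespace Pool.Agent.Helper67.NX2

open Pool.Agent.Helper57.NX

noncomputable section

variable {N : ℕ} [NeZero N]

omit [NeZero N] in
theorem cr_norm_Aq_le {f : ZMod N → ℂ} (hf : ∀ x, ‖f x‖ ≤ 1) (st L : ℕ) (x : ZMod N) :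
    ‖Aq st L f x‖ ≤ 1 := norm_expect_le_of5 _ _ zero_le_one fun _ _ => hf _

omit [NeZero N] in
theorem cr_norm_Aqb_le {f : ZMod N → ℂ} (hf : ∀ x, ‖f x‖ ≤ 1) (st L : ℕ) (x : ZMod N) :
    ‖Aqb st L f x‖ ≤ 1 := norm_expect_le_of5 _ _ zero_le_one fun _ _ => hf _

omit [NeZero N] in
theorem cr_conj_Aq (st L : ℕ) (f : ZMod N → ℂ) (x : ZMod N) :
    conj (Aq st L f x) = Aq st L (fun x => conj (f x)) x := by
  rw [Aq, Aq, map_expect]

theorem cr_adj (st L : ℕ) (f g : ZMod N → ℂ) :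
    𝔼 x, Aq st L f x * g x = 𝔼 x, f x * Aqb st L g x := by
  unfold Aq Aqb
  simp only [expect_mul, mul_expect]
  rw [expect_comm, expect_comm (s := univ) (t := range L)]
  refine expect_congr rfl fun a _ => ?_
  rw [← expect_shift (fun x => f x * g (x - ((st * a : ℕ) : ZMod N))) ((st * a : ℕ) : ZMod N)]
  refine expect_congr rfl fun x _ => ?_
  rw [add_sub_cancel_right]

omit [NeZero N] in
theorem cr_tv_Aq {B X : ℝ} {f : ZMod N → ℂ} (h : TV B X f) (st L : ℕ) : TV B X (Aq st L f) := by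
  intro x l
  refine sum_expect_le5 (range L) (fun a y => f (y + ((st * a : ℕ) : ZMod N)))
    (h.rhs_nonneg5 l) x l fun a _ => ?_
  refine le_trans (le_of_eq ?_) (h (x + ((st * a : ℕ) : ZMod N)) l)
  refine sum_congr rfl fun j _ => ?_
  congr 3 <;> ring

omit [NeZero N] in
theorem cr_tv_Aqb {B X : ℝ} {f : ZMod N → ℂ} (h : TV B X f) (st L : ℕ) : TV B X (Aqb st L f) := by
  intro x l
  refine sum_expect_le5 (range L) (fun a y => f (y - ((st * a : ℕ) : ZMod N)))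
    (h.rhs_nonneg5 l) x l fun a _ => ?_
  refine le_trans (le_of_eq ?_) (h (x - ((st * a : ℕ) : ZMod N)) l)
  refine sum_congr rfl fun j _ => ?_
  congr 3 <;> ring

omit [NeZero N] in
theorem cr_adm_Aq {B X : ℝ} {f : ZMod N → ℂ} (h : Adm B X f) (st L : ℕ) :
    Adm B X (Aq st L f) := ⟨cr_norm_Aq_le h.bdd st L, cr_tv_Aq h.tv st L⟩

omit [NeZero N] in
theorem cr_adm_Aqb {B X : ℝ} {f : ZMod N → ℂ} (h : Adm B X f) (st L : ℕ) :
    Adm B X (Aqb st L f) := ⟨cr_norm_Aqb_le h.bdd st L, cr_tv_Aqb h.tv st L⟩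

omit [NeZero N] in
theorem cr_Aqb_step {f : ZMod N → ℂ} (hf : ∀ x, ‖f x‖ ≤ 1) (st L : ℕ) (x : ZMod N) :
    ‖Aqb st L f (x + (st : ZMod N)) - Aqb st L f x‖ ≤ 2 / L := by
  have h1 : Aqb st L f (x + (st : ZMod N)) - Aqb st L f x =
      (f (x + (st : ZMod N)) - f (x + (st : ZMod N) - ((st * L : ℕ) : ZMod N))) / L := by
    unfold Aqb
    rw [← expect_sub_distrib, expect_eq_sum_div_card, card_range]
    congr 1
    have h := Finset.sum_range_sub' (fun a : ℕ => f (x + (st : ZMod N) - ((st * a : ℕ) : ZMod N))) L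
    simp only [mul_zero, Nat.cast_zero, sub_zero] at h
    rw [← h]
    refine sum_congr rfl fun a _ => ?_
    congr 2
    push_cast
    ring
  rw [h1, norm_div, Complex.norm_natCast]
  refine div_le_div_of_nonneg_right ?_ (Nat.cast_nonneg _)
  refine (norm_sub_le _ _).trans ?_
  linarith [hf (x + (st : ZMod N)), hf (x + (st : ZMod N) - ((st * L : ℕ) : ZMod N))]

omit [NeZero N] in
theorem cr_shift {g : ZMod N → ℂ} {v : ℝ} (st : ℕ) (hg : ∀ x, ‖g (x + (st : ZMod N)) - g x‖ ≤ v)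
    (x : ZMod N) (t : ℤ) : ‖g (x + ((st * t : ℤ) : ZMod N)) - g x‖ ≤ |(t : ℝ)| * v := by
  have key : ∀ (t : ℕ) (x : ZMod N), ‖g (x + ((st * t : ℕ) : ZMod N)) - g x‖ ≤ t * v := by
    intro t
    induction t with
    | zero => intro x; simp
    | succ t ih =>
      intro x
      have h1 := ih x
      have h2 := hg (x + ((st * t : ℕ) : ZMod N))
      have h3 : x + ((st * (t + 1) : ℕ) : ZMod N) = x + ((st * t : ℕ) : ZMod N) + (st : ZMod N) := by
        push_cast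
        ring
      rw [h3]
      have h4 : g (x + ((st * t : ℕ) : ZMod N) + (st : ZMod N)) - g x =
          (g (x + ((st * t : ℕ) : ZMod N) + (st : ZMod N)) - g (x + ((st * t : ℕ) : ZMod N))) +
          (g (x + ((st * t : ℕ) : ZMod N)) - g x) := by ring
      rw [h4]
      refine (norm_add_le _ _).trans ?_
      push_cast
      push_cast at h1 h2
      linarith
  rcases Int.eq_nat_or_neg t with ⟨n, rfl | rfl⟩
  · have := key n x
    simpa using this
  · have := key n (x - ((st * n : ℕ) : ZMod N))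
    rw [sub_add_cancel, norm_sub_rev] at this
    simpa [sub_eq_add_neg] using this

omit [NeZero N] in
theorem cr_Aqb_lip {f : ZMod N → ℂ} (hf : ∀ x, ‖f x‖ ≤ 1) (st L : ℕ) (x : ZMod N) (t : ℤ) :
    ‖Aqb st L f (x + ((st * t : ℤ) : ZMod N)) - Aqb st L f x‖ ≤ |(t : ℝ)| * (2 / L) :=
  cr_shift st (cr_Aqb_step hf st L) x t

/-- The identity behind the choice of the character. -/
theorem cr_char_sum (w : ZMod N → ℂ) (st L : ℕ) :
    𝔼 y, 𝔼 x, ‖Aq st L (fun x => w x * conj (w (x + y))) x‖ ^ 2 =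
      ∑ b, ‖fc w b‖ ^ 2 * 𝔼 x, ‖Aq st L (fun x => w x * conj (ch b x)) x‖ ^ 2 := by
  have h1 : ∀ x, 𝔼 y, ‖Aq st L (fun x => w x * conj (w (x + y))) x‖ ^ 2 =
      ∑ b, ‖fc w b‖ ^ 2 * ‖Aq st L (fun x => w x * conj (ch b x)) x‖ ^ 2 := by
    intro x
    have h2 : ∀ y, ‖Aq st L (fun x => w x * conj (w (x + y))) x‖ ^ 2 =
        ‖∑ b, (fc w b * 𝔼 a ∈ range L, conj (w (x + ((st * a : ℕ) : ZMod N))) *
          ch b ((st * a : ℕ) : ZMod N)) * ch b (y + x)‖ ^ 2 := by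
      intro y
      have h3 : ∑ b, (fc w b * 𝔼 a ∈ range L, conj (w (x + ((st * a : ℕ) : ZMod N))) *
          ch b ((st * a : ℕ) : ZMod N)) * ch b (y + x) =
          𝔼 a ∈ range L, conj (w (x + ((st * a : ℕ) : ZMod N))) *
            w (x + ((st * a : ℕ) : ZMod N) + y) := by
        have h4 : ∀ a : ℕ, conj (w (x + ((st * a : ℕ) : ZMod N))) *
            w (x + ((st * a : ℕ) : ZMod N) + y) =
            ∑ b, fc w b * (conj (w (x + ((st * a : ℕ) : ZMod N))) *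
              ch b ((st * a : ℕ) : ZMod N)) * ch b (y + x) := by
          intro a
          rw [four_inv w (x + ((st * a : ℕ) : ZMod N) + y), Finset.mul_sum]
          refine Finset.sum_congr rfl fun b _ => ?_
          have h5 : x + ((st * a : ℕ) : ZMod N) + y = ((st * a : ℕ) : ZMod N) + (y + x) := by ring
          rw [h5, ch_add b ((st * a : ℕ) : ZMod N)]
          ring
        simp_rw [h4]
        rw [Finset.expect_sum_comm]
        refine Finset.sum_congr rfl fun b _ => ?_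
        rw [Finset.mul_expect, Finset.expect_mul]
      rw [h3, ← RCLike.norm_conj (Aq st L _ x), Aq, map_expect]
      congr 2
      refine Finset.expect_congr rfl fun a _ => ?_
      rw [map_mul, Complex.conj_conj]
    simp_rw [h2]
    rw [expect_shift (fun y => ‖∑ b, (fc w b * 𝔼 a ∈ range L,
      conj (w (x + ((st * a : ℕ) : ZMod N))) * ch b ((st * a : ℕ) : ZMod N)) * ch b y‖ ^ 2) x,
      parseval]
    refine Finset.sum_congr rfl fun b _ => ?_
    rw [norm_mul, mul_pow]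
    congr 2
    have h6 : Aq st L (fun x => w x * conj (ch b x)) x =
        conj (ch b x) * conj (𝔼 a ∈ range L, conj (w (x + ((st * a : ℕ) : ZMod N))) *
          ch b ((st * a : ℕ) : ZMod N)) := by
      rw [Aq, map_expect, Finset.mul_expect]
      refine Finset.expect_congr rfl fun a _ => ?_
      rw [map_mul, Complex.conj_conj, ch_add, map_mul]
      ring
    rw [h6, norm_mul, RCLike.norm_conj, RCLike.norm_conj, norm_ch, one_mul]
  rw [Finset.expect_comm]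
  simp_rw [h1]
  rw [Finset.expect_sum_comm]
  simp_rw [← Finset.mul_expect]

/-- The Fourier coefficients of `w` are small at large frequencies. -/
theorem cr_fc_wf (Y : ℕ) (F : ZMod N → ℂ) (b : ZMod N) :
    ‖fc (wf Y F) b‖ = ‖𝔼 a ∈ range Y, (1 : ℂ) * e (-(fr b * (a : ℕ)))‖ *
      ‖fc (fun x => conj (Ab Y F x)) b‖ := by
  have h1 : fc (wf Y F) b = conj (𝔼 x, A Y (Ab Y F) x * ch b x) := by
    rw [fc, map_expect]
    refine Finset.expect_congr rfl fun x _ => ?_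
    rw [map_mul, wf]
  have h2 : ∀ x, Ab Y (ch b) x = ch b x * 𝔼 a ∈ range Y, (1 : ℂ) * e (-(fr b * (a : ℕ))) := by
    intro x
    rw [Helper57.NX.Ab, Finset.mul_expect]
    refine Finset.expect_congr rfl fun a _ => ?_
    rw [one_mul, sub_eq_add_neg, ch_add, ← conj_ch, ch_nat, e_neg]
  have h3 : fc (fun x => conj (Ab Y F x)) b = conj (𝔼 x, Ab Y F x * ch b x) := by
    rw [fc, map_expect]
    refine Finset.expect_congr rfl fun x _ => ?_
    rw [map_mul]
  rw [h1, h3, RCLike.norm_conj, RCLike.norm_conj, adj_A]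
  have h4 : 𝔼 x, Ab Y F x * Ab Y (ch b) x =
      (𝔼 a ∈ range Y, (1 : ℂ) * e (-(fr b * (a : ℕ)))) * 𝔼 x, Ab Y F x * ch b x := by
    rw [Finset.mul_expect]
    refine Finset.expect_congr rfl fun x _ => ?_
    rw [h2 x]
    ring
  rw [h4, norm_mul]

theorem cr_geom (Y : ℕ) (hY : 1 ≤ Y) (θ : ℝ) (h0 : 0 < |θ|) (h1 : |θ| ≤ 1 / 2) :
    ‖𝔼 a ∈ range Y, (1 : ℂ) * e (-(θ * (a : ℕ)))‖ ≤ 1 / (2 * |θ| * Y) := by
  have h := freq_bound (N := 1) (f := fun _ => (1 : ℂ)) (fun _ => by simp) 0 Y hY θ h0 h1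
  refine h.trans (le_of_eq ?_)
  simp only [sub_self, norm_zero, Finset.sum_const_zero, add_zero]
  have hY0 : (0 : ℝ) < Y := by exact_mod_cast hY
  field_simp
  norm_num

/-- A character of small frequency. -/
theorem cr_exists_char {F : ZMod N → ℂ} (hF : ∀ x, ‖F x‖ ≤ 1) (Y : ℕ) (hY : 1 ≤ Y) (st L : ℕ)
    {κ : ℝ} (hκ0 : 0 < κ) (hκ1 : κ ≤ 1)
    (hκ : κ ≤ 𝔼 y, 𝔼 x, ‖Aq st L (fun x => wf Y F x * conj (wf Y F (x + y))) x‖ ^ 2) :
    ∃ b : ZMod N, |fr b| ≤ κ⁻¹ / Y ∧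
      κ / 2 ≤ 𝔼 x, ‖Aq st L (fun x => wf Y F x * conj (ch b x)) x‖ ^ 2 := by
  have hY0 : (0 : ℝ) < Y := by exact_mod_cast hY
  rw [cr_char_sum] at hκ
  by_contra hcon
  push Not at hcon
  have hE1 : ∀ b : ZMod N, 𝔼 x, ‖Aq st L (fun x => wf Y F x * conj (ch b x)) x‖ ^ 2 ≤ 1 := by
    intro b
    refine expect_le_of5 _ _ zero_le_one fun x _ => ?_
    refine pow_le_one₀ (norm_nonneg _) (cr_norm_Aq_le (fun x => ?_) st L x)
    exact norm_wch_le hF Y b x
  have hE0 : ∀ b : ZMod N, 0 ≤ 𝔼 x, ‖Aq st L (fun x => wf Y F x * conj (ch b x)) x‖ ^ 2 :=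
    fun b => Finset.expect_nonneg fun x _ => sq_nonneg _
  have hterm : ∀ b : ZMod N, ‖fc (wf Y F) b‖ ^ 2 *
      𝔼 x, ‖Aq st L (fun x => wf Y F x * conj (ch b x)) x‖ ^ 2 ≤
      κ / 2 * ‖fc (wf Y F) b‖ ^ 2 + (κ / 2) ^ 2 * ‖fc (fun x => conj (Ab Y F x)) b‖ ^ 2 := by
    intro b
    by_cases hb : |fr b| ≤ κ⁻¹ / Y
    · have h1 := hcon b hb
      have h2 : ‖fc (wf Y F) b‖ ^ 2 *
          𝔼 x, ‖Aq st L (fun x => wf Y F x * conj (ch b x)) x‖ ^ 2 ≤
          ‖fc (wf Y F) b‖ ^ 2 * (κ / 2) := mul_le_mul_of_nonneg_left h1.le (sq_nonneg _)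
      have h3 : 0 ≤ (κ / 2) ^ 2 * ‖fc (fun x => conj (Ab Y F x)) b‖ ^ 2 := by positivity
      linarith
    · push Not at hb
      have hfr0 : 0 < |fr b| := lt_of_lt_of_le (by positivity) hb.le
      have h1 := cr_geom Y hY (fr b) hfr0 (abs_fr_le b)
      have h2 : 1 / (2 * |fr b| * Y) ≤ κ / 2 := by
        rw [div_le_div_iff₀ (by positivity) (by norm_num)]
        rw [div_lt_iff₀ hY0] at hb
        have h3 : 1 ≤ κ * (|fr b| * Y) := by
          calc (1 : ℝ) = κ * κ⁻¹ := (mul_inv_cancel₀ hκ0.ne').symm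
            _ ≤ _ := mul_le_mul_of_nonneg_left hb.le hκ0.le
        nlinarith
      have h4 : ‖fc (wf Y F) b‖ ≤ κ / 2 * ‖fc (fun x => conj (Ab Y F x)) b‖ := by
        rw [cr_fc_wf]
        exact mul_le_mul_of_nonneg_right (h1.trans h2) (norm_nonneg _)
      have h5 : ‖fc (wf Y F) b‖ ^ 2 ≤ (κ / 2) ^ 2 * ‖fc (fun x => conj (Ab Y F x)) b‖ ^ 2 := by
        rw [← mul_pow]
        exact pow_le_pow_left₀ (norm_nonneg _) h4 2
      have h6 : ‖fc (wf Y F) b‖ ^ 2 *
          𝔼 x, ‖Aq st L (fun x => wf Y F x * conj (ch b x)) x‖ ^ 2 ≤ ‖fc (wf Y F) b‖ ^ 2 * 1 :=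
        mul_le_mul_of_nonneg_left (hE1 b) (sq_nonneg _)
      have h7 : 0 ≤ κ / 2 * ‖fc (wf Y F) b‖ ^ 2 := by positivity
      linarith
  have hsum : ∑ b, ‖fc (wf Y F) b‖ ^ 2 *
      𝔼 x, ‖Aq st L (fun x => wf Y F x * conj (ch b x)) x‖ ^ 2 ≤ κ / 2 + (κ / 2) ^ 2 := by
    refine (Finset.sum_le_sum fun b _ => hterm b).trans ?_
    rw [Finset.sum_add_distrib, ← Finset.mul_sum, ← Finset.mul_sum]
    have h1 := sum_fc_le (norm_wf_le hF Y)
    have h2 := sum_fc_le (w := fun x => conj (Ab Y F x)) (fun x => by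
      rw [RCLike.norm_conj]
      exact norm_Ab_le hF Y x)
    have h3 := mul_le_mul_of_nonneg_left h1 (by positivity : (0 : ℝ) ≤ κ / 2)
    have h4 := mul_le_mul_of_nonneg_left h2 (by positivity : (0 : ℝ) ≤ (κ / 2) ^ 2)
    linarith
  nlinarith

/-- The structured function. -/
def sfq (st Y L : ℕ) (F : ZMod N → ℂ) (b : ZMod N) (x : ZMod N) : ℂ :=
  Aqb st L (Aq st L (fun x => wf Y F x * conj (ch b x))) x

theorem cr_exists_shift {F : ZMod N → ℂ} (st Y L : ℕ) (b : ZMod N) {κ : ℝ} (hκ0 : 0 < κ)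
    (hκ : κ ≤ 𝔼 x, ‖Aq st L (fun x => wf Y F x * conj (ch b x)) x‖ ^ 2) :
    ∃ y : ZMod N, κ ≤ ‖𝔼 x, (ch b (x + y) * sfq st Y L F b (x + y)) * F x‖ := by
  set g : ZMod N → ℂ := fun x => wf Y F x * conj (ch b x) with hg
  set ψ : ZMod N → ℂ := fun x => ch b x * sfq st Y L F b x with hψ
  have h1 : 𝔼 x, conj (wf Y F x) * ψ x = ((𝔼 x, ‖Aq st L g x‖ ^ 2 : ℝ) : ℂ) := by
    have h2 : 𝔼 x, conj (wf Y F x) * ψ x = 𝔼 x, conj (g x) * Aqb st L (Aq st L g) x := by
      refine Finset.expect_congr rfl fun x _ => ?_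
      rw [hg, hψ]
      simp only [map_mul, Complex.conj_conj, sfq]
      ring
    rw [h2, ← cr_adj, ← expect_mul_conj]
    refine Finset.expect_congr rfl fun x _ => ?_
    rw [cr_conj_Aq]
  have h3 : 𝔼 x, conj (wf Y F x) * ψ x = 𝔼 x, A Y (Ab Y ψ) x * F x := by
    have h4 : 𝔼 x, conj (wf Y F x) * ψ x = 𝔼 x, A Y (Ab Y F) x * ψ x := by
      refine Finset.expect_congr rfl fun x _ => ?_
      rw [wf, Complex.conj_conj]
    rw [h4, adj_A, adj_A]
    exact Finset.expect_congr rfl fun x _ => mul_comm _ _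
  have h5 : 𝔼 x, A Y (Ab Y ψ) x * F x =
      𝔼 p ∈ range Y ×ˢ range Y, 𝔼 x, ψ (x + ((p.1 : ZMod N) - (p.2 : ZMod N))) * F x := by
    rw [Finset.expect_product, ]
    simp only [A, Helper57.NX.Ab]
    simp_rw [Finset.expect_mul]
    rw [Finset.expect_comm]
    refine Finset.expect_congr rfl fun a _ => ?_
    rw [Finset.expect_comm]
    refine Finset.expect_congr rfl fun a' _ => ?_
    refine Finset.expect_congr rfl fun x _ => ?_
    rw [add_sub_assoc]
  by_contra hcon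
  push Not at hcon
  have h6 : ‖𝔼 p ∈ range Y ×ˢ range Y, 𝔼 x, ψ (x + ((p.1 : ZMod N) - (p.2 : ZMod N))) * F x‖ < κ := by
    rcases (range Y ×ˢ range Y).eq_empty_or_nonempty with h | h
    · rw [h, Finset.expect_empty, norm_zero]
      exact hκ0
    · refine (norm_expect_le' _ _).trans_lt ?_
      exact expect_lt h fun p _ => hcon _
  rw [← h5, ← h3, h1, Complex.norm_real, Real.norm_eq_abs, abs_of_nonneg] at h6
  · exact absurd hκ (not_le.mpr h6)
  · exact Finset.expect_nonneg fun x _ => sq_nonneg _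

end

end Pool.Agent.Helper67.NX2
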