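import Pool.Agent.Helper67.NX2.DefsB

/-!
# Project NX2, module B11, first part: Chinese remainder theorem for averages, properties of `DS`
-/

set_option autoImplicit false

open Finset
open scoped BigOperators ComplexConjugate

namespace Pool.Agent.Helper67.NX2

open Pool.Agent.Helper57.NX

noncomputable section

/-- averaging over one more coordinate -/
theorem gmm_update {ι : Type} [Fintype ι] [DecidableEq ι] (X : ι → Type) [∀ i, Fintype (X i)]
    [∀ i, Nonempty (X i)] (Φ : (∀ i, X i) → ℝ) (p : ι) :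
    𝔼 ω : ∀ i, X i, 𝔼 t : X p, Φ (Function.update ω p t) = 𝔼 ω : ∀ i, X i, Φ ω := by
  let ee : (∀ i, X i) × X p ≃ (∀ i, X i) × X p :=
    { toFun := fun z => (Function.update z.1 p z.2, z.1 p)
      invFun := fun z => (Function.update z.1 p z.2, z.1 p)
      left_inv := fun z => by simp
      right_inv := fun z => by simp }
  calc 𝔼 ω : ∀ i, X i, 𝔼 t : X p, Φ (Function.update ω p t)
      = 𝔼 z : (∀ i, X i) × X p, Φ (Function.update z.1 p z.2) := by
        rw [← Finset.univ_product_univ, Finset.expect_product]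
    _ = 𝔼 z : (∀ i, X i) × X p, Φ z.1 := Fintype.expect_equiv ee _ _ (fun z => rfl)
    _ = 𝔼 ω : ∀ i, X i, 𝔼 _t : X p, Φ ω := by
        rw [← Finset.univ_product_univ, Finset.expect_product]
    _ = 𝔼 ω : ∀ i, X i, Φ ω :=
        Finset.expect_congr rfl fun ω _ => Finset.expect_const Finset.univ_nonempty _

/-- Chinese remainder theorem for averages, two moduli -/
theorem gmm_crt2 (m n : ℕ) (hm : 1 ≤ m) (hn : 1 ≤ n) (h : Nat.Coprime m n) (f : ℕ → ℕ → ℝ) :
    𝔼 x ∈ range (m * n), f (x % m) (x % n) = 𝔼 a ∈ range m, 𝔼 b ∈ range n, f a b := by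
  have hmn : (0 : ℝ) < m * n := by
    have h1 : (1 : ℝ) ≤ m := by exact_mod_cast hm
    have h2 : (1 : ℝ) ≤ n := by exact_mod_cast hn
    positivity
  have h1 : ∑ x ∈ range (m * n), f (x % m) (x % n) = ∑ z ∈ range m ×ˢ range n, f z.1 z.2 := by
    refine Finset.sum_nbij (fun x => (x % m, x % n)) ?_ ?_ ?_ ?_
    · intro x _
      rw [Finset.mem_product, Finset.mem_range, Finset.mem_range]
      exact ⟨Nat.mod_lt _ hm, Nat.mod_lt _ hn⟩
    · intro x hx y hy hxy
      simp only [Prod.mk.injEq] at hxy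
      have h2 : x ≡ y [MOD m * n] := (Nat.modEq_and_modEq_iff_modEq_mul h).mp ⟨hxy.1, hxy.2⟩
      have hx' : x < m * n := by simpa using hx
      have hy' : y < m * n := by simpa using hy
      exact Nat.ModEq.eq_of_lt_of_lt h2 hx' hy'
    · rintro ⟨a, b⟩ hab
      simp only [Finset.coe_product, Set.mem_prod, Finset.mem_coe, Finset.mem_range] at hab
      obtain ⟨c, hc⟩ := Nat.chineseRemainder h a b
      refine ⟨c % (m * n), ?_, ?_⟩
      · simp only [Finset.mem_coe, Finset.mem_range]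
        exact Nat.mod_lt _ (Nat.mul_pos hm hn)
      · have e1 : c % (m * n) % m = a := by
          rw [Nat.mod_mul_right_mod]
          have := hc.1
          rw [Nat.ModEq, Nat.mod_eq_of_lt hab.1] at this
          exact this
        have e2 : c % (m * n) % n = b := by
          rw [Nat.mod_mul_left_mod]
          have := hc.2
          rw [Nat.ModEq, Nat.mod_eq_of_lt hab.2] at this
          exact this
        rw [Prod.mk.injEq]
        exact ⟨e1, e2⟩
    · intro x _
      rfl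
  rw [Finset.expect_eq_sum_div_card, h1, Finset.sum_product, Finset.card_range,
    Finset.expect_eq_sum_div_card, Finset.card_range]
  simp_rw [Finset.expect_eq_sum_div_card, Finset.card_range]
  rw [← Finset.sum_div, div_div]
  push_cast
  rw [mul_comm (n : ℝ) m]

/-- extension of a residue vector by zero -/
def gmext (r1 : ℕ) (PP : Finset ℕ) (ω : ∀ p : {p // p ∈ PP}, Fin (p.1 ^ r1)) (p : ℕ) : ℕ :=
  if hp : p ∈ PP then (ω ⟨p, hp⟩ : ℕ) else 0

theorem gmext_mem {r1 : ℕ} {PP : Finset ℕ} (ω : ∀ p : {p // p ∈ PP}, Fin (p.1 ^ r1))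
    (p : {p // p ∈ PP}) : gmext r1 PP ω p.1 = (ω p : ℕ) := by
  unfold gmext
  rw [dif_pos p.2]

theorem gmext_update {r1 : ℕ} {PP : Finset ℕ} (ω : ∀ p : {p // p ∈ PP}, Fin (p.1 ^ r1))
    (p : {p // p ∈ PP}) (t : Fin (p.1 ^ r1)) :
    gmext r1 PP (Function.update ω p t) = Function.update (gmext r1 PP ω) p.1 (t : ℕ) := by
  funext q
  by_cases hq : q ∈ PP
  · by_cases hqp : q = p.1
    · subst hqp
      rw [Function.update_self]
      have h1 := gmext_mem (Function.update ω p t) p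
      rw [Function.update_self] at h1
      exact h1
    · rw [Function.update_of_ne hqp]
      unfold gmext
      rw [dif_pos hq, dif_pos hq, Function.update_of_ne]
      intro h
      exact hqp (congrArg Subtype.val h)
  · have hqp : q ≠ p.1 := fun h => hq (h ▸ p.2)
    rw [Function.update_of_ne hqp]
    unfold gmext
    rw [dif_neg hq, dif_neg hq]

theorem gmm_expect_fin (n : ℕ) (g : ℕ → ℝ) : 𝔼 t ∈ range n, g t = 𝔼 t : Fin n, g (t : ℕ) := by
  rw [Finset.expect_eq_sum_div_card, Fintype.expect_eq_sum_div_card, Fin.sum_univ_eq_sum_range,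
    Finset.card_range, Fintype.card_fin]

theorem gmm_crt (K r1 : ℕ) (hK : 1 ≤ K) (PP : Finset ℕ) (hPP : ∀ p ∈ PP, p.Prime ∧ ¬ p ∣ K)
    (U : Finset ℕ) : U ⊆ PP → ∀ Φ : ℕ → (ℕ → ℕ) → ℝ,
    (∀ κ κ' ω ω', κ ≡ κ' [MOD K] → (∀ q ∈ U, ω q ≡ ω' q [MOD q ^ r1]) → Φ κ ω = Φ κ' ω') →
    𝔼 x ∈ range (K * ∏ p ∈ U, p ^ r1), Φ x (fun _ => x) =
      𝔼 κ ∈ range K, 𝔼 ω : (∀ p : {p // p ∈ PP}, Fin (p.1 ^ r1)), Φ κ (gmext r1 PP ω) := by
  have hne : ∀ p : {p // p ∈ PP}, Nonempty (Fin (p.1 ^ r1)) := fun p =>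
    ⟨⟨0, pow_pos (hPP p.1 p.2).1.pos r1⟩⟩
  induction U using Finset.induction_on with
  | empty =>
    intro _ Φ hΦ
    rw [Finset.prod_empty, mul_one]
    refine Finset.expect_congr rfl fun κ _ => ?_
    rw [← Finset.expect_const (Finset.univ_nonempty (α := ∀ p : {p // p ∈ PP}, Fin (p.1 ^ r1)))
      (Φ κ (fun _ => κ))]
    refine Finset.expect_congr rfl fun ω _ => ?_
    exact hΦ _ _ _ _ rfl (fun q hq => absurd hq (Finset.notMem_empty q))
  | insert p U hpU ih =>
    intro hUP Φ hΦ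
    have hpP : p ∈ PP := hUP (Finset.mem_insert_self p U)
    have hUP' : U ⊆ PP := fun q hq => hUP (Finset.mem_insert_of_mem hq)
    have hpp := (hPP p hpP).1
    have hpr1 : 1 ≤ p ^ r1 := Nat.pos_of_ne_zero (pow_ne_zero _ hpp.pos.ne')
    have hM1 : 1 ≤ K * ∏ q ∈ U, q ^ r1 :=
      Nat.mul_pos hK (Finset.prod_pos fun q hq => pow_pos (hPP q (hUP' hq)).1.pos _)
    have hcop : Nat.Coprime (K * ∏ q ∈ U, q ^ r1) (p ^ r1) := by
      apply Nat.Coprime.pow_right
      apply Nat.Coprime.symm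
      rw [hpp.coprime_iff_not_dvd]
      intro hd
      rcases (hpp.dvd_mul).mp hd with h | h
      · exact (hPP p hpP).2 h
      · rw [hpp.prime.dvd_finset_prod_iff] at h
        obtain ⟨q, hq, hqd⟩ := h
        have h1 := hpp.dvd_of_dvd_pow hqd
        rw [Nat.prime_dvd_prime_iff_eq hpp (hPP q (hUP' hq)).1] at h1
        exact hpU (h1 ▸ hq)
    have hmod : K * ∏ q ∈ insert p U, q ^ r1 = (K * ∏ q ∈ U, q ^ r1) * p ^ r1 := by
      rw [Finset.prod_insert hpU]
      ring
    rw [hmod]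
    have hΨ : ∀ x, Φ x (fun _ => x) = Φ (x % (K * ∏ q ∈ U, q ^ r1))
        (Function.update (fun _ => x % (K * ∏ q ∈ U, q ^ r1)) p (x % p ^ r1)) := by
      intro x
      refine hΦ _ _ _ _ ?_ ?_
      · have h1 : K ∣ K * ∏ q ∈ U, q ^ r1 := dvd_mul_right _ _
        exact (Nat.ModEq.of_dvd h1 (Nat.mod_modEq x _)).symm
      · intro q hq
        by_cases hqp : q = p
        · subst hqp
          rw [Function.update_self]
          exact (Nat.mod_modEq x _).symm
        · rw [Function.update_of_ne hqp]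
          have hqU : q ∈ U := (Finset.mem_insert.mp hq).resolve_left hqp
          have h1 : q ^ r1 ∣ K * ∏ q ∈ U, q ^ r1 :=
            Dvd.dvd.mul_left (Finset.dvd_prod_of_mem (fun q => q ^ r1) hqU) K
          exact (Nat.ModEq.of_dvd h1 (Nat.mod_modEq x _)).symm
    rw [Finset.expect_congr rfl (fun x _ => hΨ x)]
    rw [gmm_crt2 (K * ∏ q ∈ U, q ^ r1) (p ^ r1) hM1 hpr1 hcop
      (fun a t => Φ a (Function.update (fun _ => a) p t)), Finset.expect_comm]
    have hih : ∀ t ∈ range (p ^ r1), 𝔼 a ∈ range (K * ∏ q ∈ U, q ^ r1),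
        Φ a (Function.update (fun _ => a) p t) = 𝔼 κ ∈ range K,
        𝔼 ω : (∀ p : {p // p ∈ PP}, Fin (p.1 ^ r1)),
          Φ κ (Function.update (gmext r1 PP ω) p t) := by
      intro t _
      refine ih hUP' (fun κ ω => Φ κ (Function.update ω p t)) ?_
      intro κ κ' ω ω' h1 h2
      refine hΦ _ _ _ _ h1 ?_
      intro q hq
      by_cases hqp : q = p
      · subst hqp
        rw [Function.update_self, Function.update_self]
      · rw [Function.update_of_ne hqp, Function.update_of_ne hqp]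
        exact h2 q ((Finset.mem_insert.mp hq).resolve_left hqp)
    rw [Finset.expect_congr rfl hih, Finset.expect_comm]
    refine Finset.expect_congr rfl fun κ _ => ?_
    rw [Finset.expect_comm]
    rw [← gmm_update (fun p : {p // p ∈ PP} => Fin (p.1 ^ r1)) (fun ω => Φ κ (gmext r1 PP ω)) ⟨p, hpP⟩]
    refine Finset.expect_congr rfl fun ω _ => ?_
    rw [gmm_expect_fin]
    refine Finset.expect_congr rfl fun t _ => ?_
    rw [gmext_update]

theorem gmm_DS_congr (F : ℕ → ℝ) (K r1 b j : ℕ) (S : Finset ℕ) {κ κ' : ℕ} {ω ω' : ℕ → ℕ}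
    (hκ : κ ≡ κ' [MOD K]) (hω : ∀ p ∈ S, ω p ≡ ω' p [MOD p ^ r1]) :
    DS F K r1 b j S κ ω = DS F K r1 b j S κ' ω' := by
  unfold DS
  congr 1
  refine Finset.sum_congr rfl fun y _ => ?_
  have h1 : (y ≡ κ [MOD K]) ↔ (y ≡ κ' [MOD K]) := ⟨fun h => h.trans hκ, fun h => h.trans hκ.symm⟩
  have h2 : ∏ p ∈ S, ((if y ≡ ω p [MOD p ^ r1] then (p : ℝ) ^ r1 else 0) - 1) =
      ∏ p ∈ S, ((if y ≡ ω' p [MOD p ^ r1] then (p : ℝ) ^ r1 else 0) - 1) := by
    refine Finset.prod_congr rfl fun p hp => ?_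
    have h3 : (y ≡ ω p [MOD p ^ r1]) ↔ (y ≡ ω' p [MOD p ^ r1]) :=
      ⟨fun h => h.trans (hω p hp), fun h => h.trans (hω p hp).symm⟩
    simp only [h3]
  rw [h2]
  simp only [h1]

theorem gmm_count (n y : ℕ) (hn : 1 ≤ n) :
    𝔼 t ∈ range n, ((if y ≡ t [MOD n] then (n : ℝ) else 0) - 1) = 0 := by
  have hn0 : (0 : ℝ) < n := by exact_mod_cast hn
  have h1 : ∑ t ∈ range n, (if y ≡ t [MOD n] then (n : ℝ) else 0) = n := by
    rw [Finset.sum_eq_single (y % n)]
    · rw [if_pos (Nat.mod_modEq y n).symm]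
    · intro t ht htn
      rw [if_neg]
      intro h
      apply htn
      rw [Nat.ModEq, Nat.mod_eq_of_lt (Finset.mem_range.mp ht)] at h
      exact h.symm
    · intro h
      exact absurd (Finset.mem_range.mpr (Nat.mod_lt _ hn)) h
  rw [Finset.expect_sub_distrib, Finset.expect_const (Finset.nonempty_range_iff.mpr (by omega)),
    Finset.expect_eq_sum_div_card, h1, Finset.card_range, div_self hn0.ne', sub_self]

theorem gmm_DS_zero (F : ℕ → ℝ) (K r1 b j : ℕ) (S : Finset ℕ) (κ : ℕ) (ω : ℕ → ℕ) {p : ℕ}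
    (hp : p ∈ S) (hp0 : 0 < p) :
    𝔼 t ∈ range (p ^ r1), DS F K r1 b j S κ (Function.update ω p t) = 0 := by
  have hpr1 : 1 ≤ p ^ r1 := Nat.pos_of_ne_zero (pow_ne_zero _ hp0.ne')
  have h1 : ∀ t, DS F K r1 b j S κ (Function.update ω p t) =
      ∑ y ∈ bl b j, (F y * (if y ≡ κ [MOD K] then (K : ℝ) else 0) *
        ∏ q ∈ S.erase p, ((if y ≡ ω q [MOD q ^ r1] then (q : ℝ) ^ r1 else 0) - 1)) / 2 ^ b *
        ((if y ≡ t [MOD p ^ r1] then ((p ^ r1 : ℕ) : ℝ) else 0) - 1) := by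
    intro t
    unfold DS
    rw [Finset.sum_div]
    refine Finset.sum_congr rfl fun y _ => ?_
    rw [← Finset.mul_prod_erase S _ hp, Function.update_self]
    have h2 : ∏ q ∈ S.erase p,
        ((if y ≡ Function.update ω p t q [MOD q ^ r1] then (q : ℝ) ^ r1 else 0) - 1) =
        ∏ q ∈ S.erase p, ((if y ≡ ω q [MOD q ^ r1] then (q : ℝ) ^ r1 else 0) - 1) := by
      refine Finset.prod_congr rfl fun q hq => ?_
      rw [Function.update_of_ne (Finset.ne_of_mem_erase hq)]
    rw [h2]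
    push_cast
    ring
  rw [Finset.expect_congr rfl (fun t _ => h1 t), Finset.expect_sum_comm]
  refine Finset.sum_eq_zero fun y _ => ?_
  rw [← Finset.mul_expect, gmm_count (p ^ r1) y hpr1, mul_zero]

theorem gmm_card_bl (b j : ℕ) : (bl b j).card = 2 ^ b := by
  unfold bl
  rw [Nat.card_Ico, Nat.mul_succ, Nat.add_sub_cancel_left]

theorem gmm_DS_le (F : ℕ → ℝ) (K r1 r0 b j R : ℕ) (B0 : ℝ) (hF : ∀ x, |F x| ≤ B0) (S : Finset ℕ)
    (hS : ∀ p ∈ S, 1 ≤ p ∧ p ≤ R) (hR : 1 ≤ R) (hcard : S.card ≤ r0) (κ : ℕ) (ω : ℕ → ℕ) :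
    |DS F K r1 b j S κ ω| ≤ B0 * K * (R : ℝ) ^ (r0 * r1) := by
  have hB0 : 0 ≤ B0 := (abs_nonneg _).trans (hF 0)
  have hR' : (1 : ℝ) ≤ R := by exact_mod_cast hR
  unfold DS
  rw [abs_div, abs_of_pos (by positivity : (0 : ℝ) < 2 ^ b), div_le_iff₀ (by positivity)]
  refine (Finset.abs_sum_le_sum_abs _ _).trans ?_
  calc ∑ y ∈ bl b j, |F y * (if y ≡ κ [MOD K] then (K : ℝ) else 0) *
        ∏ p ∈ S, ((if y ≡ ω p [MOD p ^ r1] then (p : ℝ) ^ r1 else 0) - 1)|
      ≤ ∑ _y ∈ bl b j, B0 * K * (R : ℝ) ^ (r0 * r1) := by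
        refine Finset.sum_le_sum fun y _ => ?_
        rw [abs_mul, abs_mul]
        refine mul_le_mul (mul_le_mul (hF y) ?_ (abs_nonneg _) hB0) ?_ (abs_nonneg _)
          (by positivity)
        · split_ifs
          · rw [Nat.abs_cast]
          · rw [abs_zero]; positivity
        · rw [Finset.abs_prod]
          calc ∏ p ∈ S, |(if y ≡ ω p [MOD p ^ r1] then (p : ℝ) ^ r1 else 0) - 1|
              ≤ ∏ _p ∈ S, (R : ℝ) ^ r1 := by
                refine Finset.prod_le_prod (fun p _ => abs_nonneg _) fun p hp => ?_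
                have h1 : (1 : ℝ) ≤ p := by exact_mod_cast (hS p hp).1
                have h2 : (p : ℝ) ≤ R := by exact_mod_cast (hS p hp).2
                have h3 : (1 : ℝ) ≤ (p : ℝ) ^ r1 := one_le_pow₀ h1
                have h4 : (p : ℝ) ^ r1 ≤ (R : ℝ) ^ r1 := pow_le_pow_left₀ (by linarith) h2 _
                split_ifs
                · rw [abs_of_nonneg (by linarith)]
                  linarith
                · rw [zero_sub, abs_neg, abs_one]
                  linarith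
            _ = (R : ℝ) ^ (r1 * S.card) := by rw [Finset.prod_const, ← pow_mul]
            _ ≤ (R : ℝ) ^ (r0 * r1) := by
                refine pow_le_pow_right₀ hR' ?_
                rw [mul_comm]
                exact Nat.mul_le_mul_right r1 hcard
    _ = B0 * K * (R : ℝ) ^ (r0 * r1) * 2 ^ b := by
        rw [Finset.sum_const, gmm_card_bl, nsmul_eq_mul]
        push_cast
        ring

theorem gmm_periodic_avg (M b j : ℕ) (hM : 1 ≤ M) (Φ : ℕ → ℝ) (B : ℝ) (hΦ : ∀ x, |Φ x| ≤ B)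
    (hper : ∀ x, Φ (x + M) = Φ x) :
    |(∑ x ∈ bl b j, Φ x) / 2 ^ b - 𝔼 x ∈ range M, Φ x| ≤ 2 * M * B / 2 ^ b := by
  have hB : 0 ≤ B := (abs_nonneg _).trans (hΦ 0)
  have hM0 : (0 : ℝ) < M := by exact_mod_cast hM
  -- sums over complete periods
  have hfull : ∀ a : ℕ, ∑ x ∈ Ico a (a + M), Φ x = ∑ x ∈ range M, Φ x := by
    intro a
    induction a with
    | zero => rw [zero_add, Finset.range_eq_Ico]
    | succ a ih =>
      have h1 : ∑ x ∈ Ico a (a + M), Φ x = Φ a + ∑ x ∈ Ico (a + 1) (a + M), Φ x :=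
        Finset.sum_eq_sum_Ico_succ_bot (by omega) Φ
      have h2 : ∑ x ∈ Ico (a + 1) (a + 1 + M), Φ x =
          ∑ x ∈ Ico (a + 1) (a + M), Φ x + Φ (a + M) := by
        rw [show a + 1 + M = a + M + 1 by ring, Finset.sum_Ico_succ_top (by omega)]
      rw [h2, hper, ← ih, h1, add_comm]
  have hmany : ∀ (m a : ℕ), ∑ x ∈ Ico a (a + M * m), Φ x = m * ∑ x ∈ range M, Φ x := by
    intro m
    induction m with
    | zero => intro a; simp
    | succ m ih =>
      intro a
      rw [show a + M * (m + 1) = a + M * m + M by ring,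
        ← Finset.sum_Ico_consecutive Φ (show a ≤ a + M * m by omega)
          (show a + M * m ≤ a + M * m + M by omega), ih a, hfull]
      push_cast
      ring
  set L := 2 ^ b with hL
  set a := 2 ^ b * j with ha
  have hbl : bl b j = Ico a (a + L) := by
    unfold bl
    rw [Nat.mul_succ]
  set m := L / M with hm
  set r := L % M with hr
  have hLm : M * m + r = L := Nat.div_add_mod L M
  have hrM : r < M := Nat.mod_lt _ hM
  have hsum : ∑ x ∈ bl b j, Φ x = m * ∑ x ∈ range M, Φ x + ∑ x ∈ Ico (a + M * m) (a + L), Φ x := by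
    rw [hbl, ← Finset.sum_Ico_consecutive Φ (show a ≤ a + M * m by omega)
      (show a + M * m ≤ a + L by omega), hmany]
  have hrest : |∑ x ∈ Ico (a + M * m) (a + L), Φ x| ≤ M * B := by
    refine (Finset.abs_sum_le_sum_abs _ _).trans ?_
    refine (Finset.sum_le_card_nsmul _ _ B fun x _ => hΦ x).trans ?_
    rw [Nat.card_Ico, nsmul_eq_mul]
    refine mul_le_mul_of_nonneg_right ?_ hB
    have : a + L - (a + M * m) ≤ M := by omega
    exact_mod_cast this
  have hE : |𝔼 x ∈ range M, Φ x| ≤ B := by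
    rw [Finset.expect_eq_sum_div_card, Finset.card_range, abs_div, abs_of_pos hM0,
      div_le_iff₀ hM0]
    refine (Finset.abs_sum_le_sum_abs _ _).trans ?_
    refine (Finset.sum_le_card_nsmul _ _ B fun x _ => hΦ x).trans ?_
    rw [Finset.card_range, nsmul_eq_mul, mul_comm]
  have hL0 : (0 : ℝ) < (2 : ℝ) ^ b := by positivity
  have hLr : (M : ℝ) * m + r = (2 : ℝ) ^ b := by exact_mod_cast hLm
  have hEs : ∑ x ∈ range M, Φ x = M * 𝔼 x ∈ range M, Φ x := by
    rw [Finset.expect_eq_sum_div_card, Finset.card_range, mul_div_cancel₀ _ hM0.ne']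
  have hkey : (∑ x ∈ bl b j, Φ x) / 2 ^ b - 𝔼 x ∈ range M, Φ x =
      (∑ x ∈ Ico (a + M * m) (a + L), Φ x - r * 𝔼 x ∈ range M, Φ x) / 2 ^ b := by
    rw [eq_div_iff hL0.ne', sub_mul, div_mul_cancel₀ _ hL0.ne', hsum, hEs, ← hLr]
    ring
  rw [hkey, abs_div, abs_of_pos hL0]
  refine div_le_div_of_nonneg_right ?_ hL0.le
  refine (abs_sub _ _).trans ?_
  rw [abs_mul, Nat.abs_cast]
  have hrM' : (r : ℝ) ≤ M := by exact_mod_cast hrM.le
  have h3 : (r : ℝ) * |𝔼 x ∈ range M, Φ x| ≤ M * B :=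
    mul_le_mul hrM' hE (abs_nonneg _) hM0.le
  linarith

end

end Pool.Agent.Helper67.NX2
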