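import Pool.Agent.Helper81.NX2.GmMomentA

/-!
# Project NX2, module B11, second part: moments of the model, from Lemma L
-/

set_option autoImplicit false

open Finset
open scoped BigOperators ComplexConjugate

namespace Pool.Agent.Helper67.NX2

open Pool.Agent.Helper57.NX

noncomputable section

/-- the statement of Lemma L -/
def LemLS (n r : ℕ) : Prop := ∃ K : ℝ, 0 ≤ K ∧ ∀ (ι : Type) [Fintype ι] [DecidableEq ι]
    (X : ι → Type) [∀ i, Fintype (X i)] [∀ i, Nonempty (X i)]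
    (h : Fin n → Finset ι → (∀ i, X i) → ℝ) (V : Fin n → ℝ),
    (∀ a S ω, 0 ≤ h a S ω) → (∀ a S, DepOn S (h a S)) → (∀ a, 0 ≤ V a) →
    (∀ a (B : Finset ι) ω, ∑ S ∈ univ.filter (fun S : Finset ι => B ⊆ S ∧ S.card ≤ r),
      𝔼 ω' : ∀ i, X i, h a S (mixo B ω ω') ^ 2 ≤ V a ^ 2) →
    ∑ Ss ∈ univ.filter (fun Ss : Fin n → Finset ι => (∀ a, (Ss a).card ≤ r) ∧
        ∀ i, (univ.filter (fun a => i ∈ Ss a)).card ≠ 1),
      𝔼 ω : ∀ i, X i, ∏ a, h a (Ss a) ω ≤ K * ∏ a, V a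

/-- a set of elements of `PP` as a set of natural numbers -/
def gmup {PP : Finset ℕ} (S : Finset {p // p ∈ PP}) : Finset ℕ :=
  S.map (Function.Embedding.subtype _)

theorem mem_gmup {PP : Finset ℕ} {S : Finset {p // p ∈ PP}} {p : ℕ} :
    p ∈ gmup S ↔ ∃ hp : p ∈ PP, (⟨p, hp⟩ : {p // p ∈ PP}) ∈ S := by
  unfold gmup
  rw [Finset.mem_map]
  constructor
  · rintro ⟨q, hq, rfl⟩
    exact ⟨q.2, hq⟩
  · rintro ⟨hp, h⟩
    exact ⟨⟨p, hp⟩, h, rfl⟩

theorem mem_gmup' {PP : Finset ℕ} {S : Finset {p // p ∈ PP}} {p : {p // p ∈ PP}} :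
    p.1 ∈ gmup S ↔ p ∈ S := by
  rw [mem_gmup]
  exact ⟨fun ⟨_, h⟩ => h, fun h => ⟨p.2, h⟩⟩

theorem gmup_sub {PP : Finset ℕ} (S : Finset {p // p ∈ PP}) : gmup S ⊆ PP := by
  intro p hp
  exact (mem_gmup.mp hp).1

theorem gmup_card {PP : Finset ℕ} (S : Finset {p // p ∈ PP}) : (gmup S).card = S.card :=
  Finset.card_map _

theorem gmup_inj {PP : Finset ℕ} : Function.Injective (gmup (PP := PP)) :=
  Finset.map_injective _

theorem gmup_subtype {PP : Finset ℕ} {T : Finset ℕ} (hT : T ⊆ PP) :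
    gmup (T.subtype (fun p => p ∈ PP)) = T := by
  ext p
  rw [mem_gmup]
  constructor
  · rintro ⟨hp, h⟩
    simpa using h
  · intro h
    exact ⟨hT h, by simpa using h⟩

theorem gmm_sum_reindex {PP : Finset ℕ} (r0 : ℕ) (f : Finset ℕ → ℝ) :
    ∑ S ∈ PP.powerset.filter (fun S => S.card ≤ r0), f S =
      ∑ S ∈ (univ : Finset (Finset {p // p ∈ PP})).filter (fun S => S.card ≤ r0), f (gmup S) := by
  symm
  refine Finset.sum_nbij' (fun S => gmup S) (fun T => T.subtype (fun p => p ∈ PP)) ?_ ?_ ?_ ?_ ?_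
  · intro S hS
    rw [Finset.mem_filter] at hS ⊢
    exact ⟨Finset.mem_powerset.mpr (gmup_sub S), by rw [gmup_card]; exact hS.2⟩
  · intro T hT
    rw [Finset.mem_filter, Finset.mem_powerset] at hT
    rw [Finset.mem_filter]
    refine ⟨Finset.mem_univ _, ?_⟩
    rw [← gmup_card, gmup_subtype hT.1]
    exact hT.2
  · intro S _
    apply gmup_inj
    exact gmup_subtype (gmup_sub S)
  · intro T hT
    rw [Finset.mem_filter, Finset.mem_powerset] at hT
    exact gmup_subtype hT.1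
  · intro S _
    rfl

theorem gmext_mixo {r1 : ℕ} {PP : Finset ℕ} (B : Finset {p // p ∈ PP})
    (ω ω' : ∀ p : {p // p ∈ PP}, Fin (p.1 ^ r1)) (p : ℕ) :
    gmext r1 PP (mixo B ω ω') p = if p ∈ gmup B then gmext r1 PP ω p else gmext r1 PP ω' p := by
  by_cases hp : p ∈ PP
  · have h1 : (p ∈ gmup B) ↔ (⟨p, hp⟩ : {p // p ∈ PP}) ∈ B :=
      mem_gmup' (p := (⟨p, hp⟩ : {p // p ∈ PP}))
    unfold gmext
    rw [dif_pos hp, dif_pos hp, dif_pos hp]
    unfold mixo
    by_cases h2 : (⟨p, hp⟩ : {p // p ∈ PP}) ∈ B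
    · rw [if_pos h2, if_pos (h1.mpr h2)]
    · rw [if_neg h2, if_neg (fun h => h2 (h1.mp h))]
  · unfold gmext
    rw [dif_neg hp, dif_neg hp, dif_neg hp, ite_self]

section Main

variable {F : ℕ → ℝ} {K b j R r0 r1 : ℕ} {PP : Finset ℕ} {B0 V : ℝ}

/-- the hypothesis of Lemma L -/
theorem gmm_hyp (hPP : ∀ p ∈ PP, p.Prime ∧ p ≤ R ∧ ¬ p ∣ K) (κ : ℕ)
    (hvar : ∀ (B : Finset ℕ) (ω : ℕ → ℕ), B ⊆ PP → B.card ≤ r0 →
      ∑ E ∈ (PP \ B).powerset.filter (fun E => (B ∪ E).card ≤ r0),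
        𝔼 t ∈ range (∏ p ∈ E, p ^ r1),
          DS F K r1 b j (B ∪ E) κ (fun p => if p ∈ B then ω p else t) ^ 2 ≤ V ^ 2)
    (B : Finset {p // p ∈ PP}) (ω : ∀ p : {p // p ∈ PP}, Fin (p.1 ^ r1)) :
    ∑ S ∈ univ.filter (fun S : Finset {p // p ∈ PP} => B ⊆ S ∧ S.card ≤ r0),
      𝔼 ω' : (∀ p : {p // p ∈ PP}, Fin (p.1 ^ r1)),
        |DS F K r1 b j (gmup S) κ (gmext r1 PP (mixo B ω ω'))| ^ 2 ≤ V ^ 2 := by
  classical
  by_cases hB : B.card ≤ r0
  swap
  · rw [Finset.filter_false_of_mem, Finset.sum_empty]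
    · positivity
    · rintro S - ⟨h1, h2⟩
      exact hB ((Finset.card_le_card h1).trans h2)
  have hterm : ∀ S ∈ univ.filter (fun S : Finset {p // p ∈ PP} => B ⊆ S ∧ S.card ≤ r0),
      𝔼 ω' : (∀ p : {p // p ∈ PP}, Fin (p.1 ^ r1)),
        |DS F K r1 b j (gmup S) κ (gmext r1 PP (mixo B ω ω'))| ^ 2 =
      𝔼 t ∈ range (∏ p ∈ gmup (S \ B), p ^ r1),
        DS F K r1 b j (gmup B ∪ gmup (S \ B)) κ
          (fun p => if p ∈ gmup B then gmext r1 PP ω p else t) ^ 2 := by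
    intro S hS
    rw [Finset.mem_filter] at hS
    have hunion : gmup B ∪ gmup (S \ B) = gmup S := by
      ext p
      rw [Finset.mem_union, mem_gmup, mem_gmup, mem_gmup]
      constructor
      · rintro (⟨hp, h⟩ | ⟨hp, h⟩)
        · exact ⟨hp, hS.2.1 h⟩
        · exact ⟨hp, (Finset.mem_sdiff.mp h).1⟩
      · rintro ⟨hp, h⟩
        by_cases h2 : (⟨p, hp⟩ : {p // p ∈ PP}) ∈ B
        · exact Or.inl ⟨hp, h2⟩
        · exact Or.inr ⟨hp, Finset.mem_sdiff.mpr ⟨h, h2⟩⟩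
    rw [hunion]
    have hcrt := gmm_crt 1 r1 le_rfl PP
      (fun p hp => ⟨(hPP p hp).1, fun h => (hPP p hp).1.one_lt.ne' (Nat.dvd_one.mp h)⟩)
      (gmup (S \ B)) (gmup_sub _)
      (fun _ ω' => DS F K r1 b j (gmup S) κ (fun p => if p ∈ gmup B then gmext r1 PP ω p else ω' p) ^ 2)
      (by
        intro _ _ ω₁ ω₂ _ h
        beta_reduce
        congr 1
        refine gmm_DS_congr F K r1 b j (gmup S) (Nat.ModEq.refl _) ?_
        intro p hp
        beta_reduce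
        split_ifs with hpB
        · rfl
        · refine h p ?_
          rw [← hunion, Finset.mem_union] at hp
          exact hp.resolve_left hpB)
    rw [one_mul] at hcrt
    rw [hcrt, Finset.range_one, Finset.expect_singleton]
    refine Finset.expect_congr rfl fun ω' _ => ?_
    rw [sq_abs]
    congr 2
    funext p
    exact gmext_mixo B ω ω' p
  rw [Finset.sum_congr rfl hterm]
  have hmaps : ∀ S ∈ univ.filter (fun S : Finset {p // p ∈ PP} => B ⊆ S ∧ S.card ≤ r0),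
      gmup (S \ B) ∈ (PP \ gmup B).powerset.filter (fun E => (gmup B ∪ E).card ≤ r0) := by
    intro S hS
    rw [Finset.mem_filter] at hS
    rw [Finset.mem_filter, Finset.mem_powerset]
    refine ⟨?_, ?_⟩
    · intro p hp
      rw [mem_gmup] at hp
      obtain ⟨hp1, hp2⟩ := hp
      rw [Finset.mem_sdiff] at hp2 ⊢
      refine ⟨hp1, ?_⟩
      rw [mem_gmup]
      rintro ⟨_, h⟩
      exact hp2.2 h
    · refine le_trans (Finset.card_le_card ?_) (le_of_eq (gmup_card S) |>.trans hS.2.2)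
      intro p hp
      rw [Finset.mem_union, mem_gmup, mem_gmup] at hp
      rw [mem_gmup]
      rcases hp with ⟨hp1, h⟩ | ⟨hp1, h⟩
      · exact ⟨hp1, hS.2.1 h⟩
      · exact ⟨hp1, (Finset.mem_sdiff.mp h).1⟩
  have hinj : Set.InjOn (fun S : Finset {p // p ∈ PP} => gmup (S \ B))
      (univ.filter (fun S : Finset {p // p ∈ PP} => B ⊆ S ∧ S.card ≤ r0) :
        Finset (Finset {p // p ∈ PP})) := by
    intro S hS S' hS' h
    have h1 := (Finset.mem_filter.mp (Finset.mem_coe.mp hS)).2.1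
    have h2 := (Finset.mem_filter.mp (Finset.mem_coe.mp hS')).2.1
    have h3 : S \ B = S' \ B := gmup_inj h
    calc S = S \ B ∪ B := (Finset.sdiff_union_of_subset h1).symm
      _ = S' \ B ∪ B := by rw [h3]
      _ = S' := Finset.sdiff_union_of_subset h2
  have himg := Finset.sum_image (f := fun E : Finset ℕ =>
    𝔼 t ∈ range (∏ p ∈ E, p ^ r1), DS F K r1 b j (gmup B ∪ E) κ
          (fun p => if p ∈ gmup B then gmext r1 PP ω p else t) ^ 2) hinj
  beta_reduce at himg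
  rw [← himg]
  refine le_trans ?_ (hvar (gmup B) (gmext r1 PP ω) (gmup_sub B) (by rw [gmup_card]; exact hB))
  refine Finset.sum_le_sum_of_subset_of_nonneg ?_ ?_
  · intro E hE
    rw [Finset.mem_image] at hE
    obtain ⟨S, hS, rfl⟩ := hE
    exact hmaps S hS
  · intro E _ _
    exact Finset.expect_nonneg fun t _ => sq_nonneg _

/-- number of small subsets -/
theorem gmm_count_subsets (hR : 2 ≤ R) (hPP : ∀ p ∈ PP, p.Prime ∧ p ≤ R ∧ ¬ p ∣ K) :
    (((univ : Finset (Finset {p // p ∈ PP})).filter (fun S => S.card ≤ r0)).card : ℝ) ≤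
      (R : ℝ) ^ (2 * r0 + 1) := by
  classical
  have hcardPP : PP.card ≤ R := by
    have h1 : PP ⊆ Icc 1 R := by
      intro p hp
      rw [Finset.mem_Icc]
      exact ⟨(hPP p hp).1.one_le, (hPP p hp).2.1⟩
    have h2 := Finset.card_le_card h1
    rw [Nat.card_Icc] at h2
    omega
  have h1 : (univ : Finset (Finset {p // p ∈ PP})).filter (fun S => S.card ≤ r0) ⊆
      (range (r0 + 1)).biUnion
        (fun i => Finset.powersetCard i (univ : Finset {p // p ∈ PP})) := by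
    intro S hS
    rw [Finset.mem_filter] at hS
    rw [Finset.mem_biUnion]
    refine ⟨S.card, Finset.mem_range.mpr (by omega), ?_⟩
    rw [Finset.mem_powersetCard]
    exact ⟨Finset.subset_univ _, rfl⟩
  have h2 : ((univ : Finset (Finset {p // p ∈ PP})).filter (fun S => S.card ≤ r0)).card ≤
      (r0 + 1) * R ^ r0 := by
    refine (Finset.card_le_card h1).trans (Finset.card_biUnion_le.trans ?_)
    calc ∑ i ∈ range (r0 + 1), (Finset.powersetCard i (univ : Finset {p // p ∈ PP})).card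
        ≤ ∑ _i ∈ range (r0 + 1), R ^ r0 := by
          refine Finset.sum_le_sum fun i hi => ?_
          rw [Finset.card_powersetCard, Finset.card_univ, Fintype.card_coe]
          calc PP.card.choose i ≤ PP.card ^ i := Nat.choose_le_pow _ _
            _ ≤ R ^ i := Nat.pow_le_pow_left hcardPP i
            _ ≤ R ^ r0 := Nat.pow_le_pow_right (by omega)
              (by have := Finset.mem_range.mp hi; omega)
      _ = (r0 + 1) * R ^ r0 := by
          rw [Finset.sum_const, Finset.card_range, smul_eq_mul]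
  have h3 : r0 + 1 ≤ R ^ (r0 + 1) := by
    have h4 : r0 + 1 < 2 ^ (r0 + 1) := Nat.lt_two_pow_self
    exact h4.le.trans (Nat.pow_le_pow_left hR _)
  have h5 : ((univ : Finset (Finset {p // p ∈ PP})).filter (fun S => S.card ≤ r0)).card ≤
      R ^ (2 * r0 + 1) := by
    refine h2.trans ((Nat.mul_le_mul_right _ h3).trans (le_of_eq ?_))
    rw [← pow_add]
    congr 1
    omega
  exact_mod_cast h5

end Main

theorem gm_moment_of (k r0 r1 : ℕ) (hr1 : 1 ≤ r1) (hL : LemLS (2 * k) r0) :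
    ∃ C : ℕ, ∀ (F : ℕ → ℝ) (K b j R : ℕ)
    (PP : Finset ℕ) (B0 V : ℝ), 1 ≤ K → 2 ≤ R → (∀ p ∈ PP, p.Prime ∧ p ≤ R ∧ ¬ p ∣ K) →
    (∀ x, |F x| ≤ B0) → 0 ≤ V →
    (∀ (κ : ℕ) (B : Finset ℕ) (ω : ℕ → ℕ), B ⊆ PP → B.card ≤ r0 →
      ∑ E ∈ (PP \ B).powerset.filter (fun E => (B ∪ E).card ≤ r0),
        𝔼 t ∈ range (∏ p ∈ E, p ^ r1),
          DS F K r1 b j (B ∪ E) κ (fun p => if p ∈ B then ω p else t) ^ 2 ≤ V ^ 2) →
    (∑ x ∈ bl b j, gm F K r0 r1 b PP x ^ (2 * k)) / 2 ^ b ≤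
      C * V ^ (2 * k) + B0 ^ (2 * k) * ((K * R : ℕ) : ℝ) ^ C / 2 ^ b := by
  classical
  obtain ⟨KL, hKL0, hL⟩ := hL
  set Ce : ℕ := (2 * r0 + 1) * (2 * k) + 1 + (1 + r1 * (r0 * (2 * k))) + (2 * k + r0 * r1 * (2 * k))
    with hCe
  refine ⟨⌈KL⌉₊ + Ce, ?_⟩
  intro F K b j R PP B0 V hK hR hPP hF hV hvar
  have hB0 : 0 ≤ B0 := (abs_nonneg _).trans (hF 0)
  have hR1 : (1 : ℝ) ≤ R := by
    have : (2 : ℝ) ≤ R := by exact_mod_cast hR
    linarith
  have hR2 : (2 : ℝ) ≤ R := by exact_mod_cast hR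
  have hK1 : (1 : ℝ) ≤ K := by exact_mod_cast hK
  have hne : ∀ p : {p // p ∈ PP}, Nonempty (Fin (p.1 ^ r1)) := fun p =>
    ⟨⟨0, pow_pos (hPP p.1 p.2).1.pos r1⟩⟩
  have h2b : (0 : ℝ) < (2 : ℝ) ^ b := by positivity
  set SF := (univ : Finset (Finset {p // p ∈ PP})).filter (fun S => S.card ≤ r0) with hSF
  set PF := Fintype.piFinset (fun _ : Fin (2 * k) => SF) with hPF
  -- the products
  set T : (Fin (2 * k) → Finset {p // p ∈ PP}) → ℕ → (ℕ → ℕ) → ℝ :=
    fun Ss κ ω => ∏ a, DS F K r1 b j (gmup (Ss a)) κ ω with hT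
  set BB : ℝ := B0 * K * (R : ℝ) ^ (r0 * r1) with hBB
  have hBB0 : 0 ≤ BB := by positivity
  have hDSle : ∀ S ∈ SF, ∀ κ ω, |DS F K r1 b j (gmup S) κ ω| ≤ BB := by
    intro S hS κ ω
    refine gmm_DS_le F K r1 r0 b j R B0 hF (gmup S) ?_ (by omega) ?_ κ ω
    · intro p hp
      exact ⟨(hPP p (gmup_sub S hp)).1.one_le, (hPP p (gmup_sub S hp)).2.1⟩
    · rw [gmup_card]
      exact (Finset.mem_filter.mp hS).2
  have hTle : ∀ Ss ∈ PF, ∀ κ ω, |T Ss κ ω| ≤ BB ^ (2 * k) := by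
    intro Ss hSs κ ω
    rw [hT]
    beta_reduce
    rw [Finset.abs_prod]
    calc ∏ a, |DS F K r1 b j (gmup (Ss a)) κ ω| ≤ ∏ _a : Fin (2 * k), BB :=
          Finset.prod_le_prod (fun a _ => abs_nonneg _)
            fun a _ => hDSle (Ss a) (Fintype.mem_piFinset.mp hSs a) κ ω
      _ = BB ^ (2 * k) := by rw [Finset.prod_const, Finset.card_univ, Fintype.card_fin]
  -- expansion
  have hexp : ∀ x ∈ bl b j, gm F K r0 r1 b PP x ^ (2 * k) = ∑ Ss ∈ PF, T Ss x (fun _ => x) := by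
    intro x hx
    have hxj : x / 2 ^ b = j := by
      unfold bl at hx
      rw [Finset.mem_Ico] at hx
      exact Nat.div_eq_of_lt_le (by rw [mul_comm]; exact hx.1) (by rw [mul_comm]; exact hx.2)
    have h1 : gm F K r0 r1 b PP x = ∑ S ∈ SF, DS F K r1 b j (gmup S) x (fun _ => x) := by
      unfold gm
      rw [hxj, gmm_sum_reindex]
    have h2 := Finset.prod_univ_sum (fun _ : Fin (2 * k) => SF)
      (fun _ S => DS F K r1 b j (gmup S) x (fun _ => x))
    rw [Finset.prod_const, Finset.card_univ, Fintype.card_fin] at h2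
    rw [h1, h2]
  -- the union of the primes
  set UU : (Fin (2 * k) → Finset {p // p ∈ PP}) → Finset ℕ :=
    fun Ss => univ.biUnion (fun a => gmup (Ss a)) with hUU
  have hUUsub : ∀ Ss, UU Ss ⊆ PP := by
    intro Ss p hp
    rw [hUU, Finset.mem_biUnion] at hp
    obtain ⟨a, -, ha⟩ := hp
    exact gmup_sub _ ha
  have hTcongr : ∀ Ss κ κ' ω ω', κ ≡ κ' [MOD K] → (∀ q ∈ UU Ss, ω q ≡ ω' q [MOD q ^ r1]) →
      T Ss κ ω = T Ss κ' ω' := by
    intro Ss κ κ' ω ω' h1 h2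
    refine Finset.prod_congr rfl fun a _ => ?_
    refine gmm_DS_congr F K r1 b j _ h1 ?_
    intro p hp
    refine h2 p ?_
    rw [hUU, Finset.mem_biUnion]
    exact ⟨a, Finset.mem_univ a, hp⟩
  have hUUmod : ∀ Ss ∈ PF, ((∏ p ∈ UU Ss, p ^ r1 : ℕ) : ℝ) ≤ (R : ℝ) ^ (r1 * (r0 * (2 * k))) := by
    intro Ss hSs
    have h1 : (UU Ss).card ≤ r0 * (2 * k) := by
      refine Finset.card_biUnion_le.trans ?_
      calc ∑ a, (gmup (Ss a)).card ≤ ∑ _a : Fin (2 * k), r0 := by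
            refine Finset.sum_le_sum fun a _ => ?_
            rw [gmup_card]
            exact (Finset.mem_filter.mp (Fintype.mem_piFinset.mp hSs a)).2
        _ = r0 * (2 * k) := by
            rw [Finset.sum_const, Finset.card_univ, Fintype.card_fin, smul_eq_mul, mul_comm]
    push_cast
    calc ∏ p ∈ UU Ss, (p : ℝ) ^ r1 ≤ ∏ _p ∈ UU Ss, (R : ℝ) ^ r1 := by
          refine Finset.prod_le_prod (fun p _ => by positivity) fun p hp => ?_
          have h2 : (p : ℝ) ≤ R := by exact_mod_cast (hPP p (hUUsub Ss hp)).2.1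
          exact pow_le_pow_left₀ (Nat.cast_nonneg _) h2 _
      _ = (R : ℝ) ^ (r1 * (UU Ss).card) := by rw [Finset.prod_const, ← pow_mul]
      _ ≤ _ := pow_le_pow_right₀ hR1 (Nat.mul_le_mul_left r1 h1)
  -- averages over a block
  have hblock : ∀ Ss ∈ PF, (∑ x ∈ bl b j, T Ss x (fun _ => x)) / 2 ^ b ≤
      𝔼 κ ∈ range K, 𝔼 ω : (∀ p : {p // p ∈ PP}, Fin (p.1 ^ r1)), T Ss κ (gmext r1 PP ω) +
        2 * (K * (R : ℝ) ^ (r1 * (r0 * (2 * k)))) * BB ^ (2 * k) / 2 ^ b := by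
    intro Ss hSs
    have hM1 : 1 ≤ K * ∏ p ∈ UU Ss, p ^ r1 :=
      Nat.mul_pos hK (Finset.prod_pos fun p hp => pow_pos (hPP p (hUUsub Ss hp)).1.pos _)
    have h1 := gmm_periodic_avg (K * ∏ p ∈ UU Ss, p ^ r1) b j hM1 (fun x => T Ss x (fun _ => x))
      (BB ^ (2 * k)) (fun x => hTle Ss hSs x _) (by
        intro x
        refine hTcongr Ss _ _ _ _ ?_ ?_
        · have h2 : x + K * ∏ p ∈ UU Ss, p ^ r1 ≡ x + 0 [MOD K] :=
            Nat.ModEq.add_left x ((Nat.modEq_zero_iff_dvd).mpr (dvd_mul_right _ _))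
          exact h2
        · intro q hq
          have h2 : x + K * ∏ p ∈ UU Ss, p ^ r1 ≡ x + 0 [MOD q ^ r1] :=
            Nat.ModEq.add_left x ((Nat.modEq_zero_iff_dvd).mpr
              (Dvd.dvd.mul_left (Finset.dvd_prod_of_mem (fun q => q ^ r1) hq) K))
          exact h2)
    rw [gmm_crt K r1 hK PP (fun p hp => ⟨(hPP p hp).1, (hPP p hp).2.2⟩) (UU Ss) (hUUsub Ss)
      (T Ss) (hTcongr Ss)] at h1
    have h2 := (abs_le.mp h1).2
    have h3 : 2 * ((K * ∏ p ∈ UU Ss, p ^ r1 : ℕ) : ℝ) * BB ^ (2 * k) / 2 ^ b ≤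
        2 * (K * (R : ℝ) ^ (r1 * (r0 * (2 * k)))) * BB ^ (2 * k) / 2 ^ b := by
      have h4 := hUUmod Ss hSs
      rw [Nat.cast_mul]
      gcongr
    linarith
  -- vanishing
  have hvanish : ∀ (κ : ℕ) (Ss : Fin (2 * k) → Finset {p // p ∈ PP}),
      (∃ i, (univ.filter (fun a => i ∈ Ss a)).card = 1) →
      𝔼 ω : (∀ p : {p // p ∈ PP}, Fin (p.1 ^ r1)), T Ss κ (gmext r1 PP ω) = 0 := by
    rintro κ Ss ⟨i, hi⟩
    rw [Finset.card_eq_one] at hi
    obtain ⟨a, ha⟩ := hi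
    have hia : i ∈ Ss a := by
      have : a ∈ univ.filter (fun a => i ∈ Ss a) := by rw [ha]; exact Finset.mem_singleton_self a
      exact (Finset.mem_filter.mp this).2
    have hother : ∀ a', a' ≠ a → i ∉ Ss a' := by
      intro a' ha' h
      have : a' ∈ univ.filter (fun a => i ∈ Ss a) := Finset.mem_filter.mpr ⟨Finset.mem_univ _, h⟩
      rw [ha, Finset.mem_singleton] at this
      exact ha' this
    rw [← gmm_update (fun p : {p // p ∈ PP} => Fin (p.1 ^ r1)) (fun ω => T Ss κ (gmext r1 PP ω)) i]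
    refine Finset.expect_eq_zero fun ω _ => ?_
    have h1 : ∀ t : Fin (i.1 ^ r1), T Ss κ (gmext r1 PP (Function.update ω i t)) =
        (∏ a' ∈ univ.erase a, DS F K r1 b j (gmup (Ss a')) κ (gmext r1 PP ω)) *
          DS F K r1 b j (gmup (Ss a)) κ (Function.update (gmext r1 PP ω) i.1 (t : ℕ)) := by
      intro t
      rw [gmext_update]
      change ∏ a', DS F K r1 b j (gmup (Ss a')) κ (Function.update (gmext r1 PP ω) i.1 (t : ℕ)) = _
      rw [← Finset.prod_erase_mul univ _ (Finset.mem_univ a)]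
      congr 1
      refine Finset.prod_congr rfl fun a' ha' => ?_
      refine gmm_DS_congr F K r1 b j _ (Nat.ModEq.refl _) ?_
      intro p hp
      have hpi : p ≠ i.1 := by
        rintro rfl
        exact hother a' (Finset.ne_of_mem_erase ha') (mem_gmup'.mp hp)
      rw [Function.update_of_ne hpi]
    rw [Finset.expect_congr rfl (fun t _ => h1 t), ← Finset.mul_expect,
      ← gmm_expect_fin (i.1 ^ r1) (fun t => DS F K r1 b j (gmup (Ss a)) κ
        (Function.update (gmext r1 PP ω) i.1 t)),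
      gmm_DS_zero F K r1 b j (gmup (Ss a)) κ (gmext r1 PP ω) (mem_gmup'.mpr hia)
        (hPP i.1 i.2).1.pos, mul_zero]
  -- Lemma L
  have hmain : ∀ κ : ℕ, ∑ Ss ∈ PF,
      𝔼 ω : (∀ p : {p // p ∈ PP}, Fin (p.1 ^ r1)), T Ss κ (gmext r1 PP ω) ≤ KL * V ^ (2 * k) := by
    intro κ
    have h1 := hL {p // p ∈ PP} (fun p => Fin (p.1 ^ r1))
      (fun _ S ω => |DS F K r1 b j (gmup S) κ (gmext r1 PP ω)|) (fun _ => V)
      (fun _ S ω => abs_nonneg _)
      (by
        intro _ S ω ω' h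
        beta_reduce
        congr 1
        refine gmm_DS_congr F K r1 b j _ (Nat.ModEq.refl _) ?_
        intro p hp
        obtain ⟨hp1, hp2⟩ := mem_gmup.mp hp
        have h2 := h ⟨p, hp1⟩ hp2
        have h3 := gmext_mem ω ⟨p, hp1⟩
        have h4 := gmext_mem ω' ⟨p, hp1⟩
        rw [h2] at h3
        change gmext r1 PP ω p = _ at h3
        change gmext r1 PP ω' p = _ at h4
        rw [h3, h4])
      (fun _ => hV)
      (fun _ B ω => gmm_hyp hPP κ (hvar κ) B ω)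
    rw [Finset.prod_const, Finset.card_univ, Fintype.card_fin] at h1
    refine le_trans ?_ h1
    have hsub : univ.filter (fun Ss : Fin (2 * k) → Finset {p // p ∈ PP} =>
        (∀ a, (Ss a).card ≤ r0) ∧ ∀ i, (univ.filter (fun a => i ∈ Ss a)).card ≠ 1) =
        PF.filter (fun Ss => ∀ i, (univ.filter (fun a => i ∈ Ss a)).card ≠ 1) := by
      ext Ss
      rw [Finset.mem_filter, Finset.mem_filter, hPF, Fintype.mem_piFinset]
      constructor
      · rintro ⟨-, h2, h3⟩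
        exact ⟨fun a => Finset.mem_filter.mpr ⟨Finset.mem_univ _, h2 a⟩, h3⟩
      · rintro ⟨h2, h3⟩
        exact ⟨Finset.mem_univ _, fun a => (Finset.mem_filter.mp (h2 a)).2, h3⟩
    rw [hsub, Finset.sum_filter]
    refine Finset.sum_le_sum fun Ss _ => ?_
    split_ifs with hgood
    · refine Finset.expect_le_expect fun ω _ => ?_
      change ∏ a, DS F K r1 b j (gmup (Ss a)) κ (gmext r1 PP ω) ≤
        ∏ a, |DS F K r1 b j (gmup (Ss a)) κ (gmext r1 PP ω)|
      refine (le_abs_self _).trans ?_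
      rw [Finset.abs_prod]
    · push Not at hgood
      exact (hvanish κ Ss hgood).le
  -- conclusion
  have hsum : (∑ x ∈ bl b j, gm F K r0 r1 b PP x ^ (2 * k)) / 2 ^ b =
      ∑ Ss ∈ PF, (∑ x ∈ bl b j, T Ss x (fun _ => x)) / 2 ^ b := by
    rw [Finset.sum_congr rfl hexp, Finset.sum_comm, Finset.sum_div]
  rw [hsum]
  refine (Finset.sum_le_sum hblock).trans ?_
  rw [Finset.sum_add_distrib, ← Finset.expect_sum_comm, Finset.sum_const, nsmul_eq_mul]
  have hKne : (range K).Nonempty := Finset.nonempty_range_iff.mpr (by omega)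
  have hpart1 : 𝔼 κ ∈ range K, ∑ Ss ∈ PF,
      𝔼 ω : (∀ p : {p // p ∈ PP}, Fin (p.1 ^ r1)), T Ss κ (gmext r1 PP ω) ≤
      ((⌈KL⌉₊ + Ce : ℕ) : ℝ) * V ^ (2 * k) := by
    refine (Finset.expect_le hKne fun κ _ => hmain κ).trans ?_
    refine mul_le_mul_of_nonneg_right ?_ (by positivity)
    push_cast
    have := Nat.le_ceil KL
    have h2 : (0 : ℝ) ≤ Ce := Nat.cast_nonneg _
    linarith
  have hcard : (PF.card : ℝ) ≤ (R : ℝ) ^ ((2 * r0 + 1) * (2 * k)) := by
    rw [hPF, Fintype.card_piFinset, Finset.prod_const, Finset.card_univ, Fintype.card_fin,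
      Nat.cast_pow, pow_mul (R : ℝ) (2 * r0 + 1) (2 * k)]
    exact pow_le_pow_left₀ (Nat.cast_nonneg _) (gmm_count_subsets hR hPP) _
  have hpart2 : (PF.card : ℝ) * (2 * (K * (R : ℝ) ^ (r1 * (r0 * (2 * k)))) * BB ^ (2 * k) / 2 ^ b) ≤
      B0 ^ (2 * k) * ((K * R : ℕ) : ℝ) ^ (⌈KL⌉₊ + Ce) / 2 ^ b := by
    rw [← mul_div_assoc]
    refine div_le_div_of_nonneg_right ?_ h2b.le
    set Z : ℝ := ((K * R : ℕ) : ℝ) with hZ
    have hZ1 : 1 ≤ Z := by
      rw [hZ]
      push_cast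
      nlinarith
    have hKZ : (K : ℝ) ≤ Z := by
      rw [hZ]
      push_cast
      nlinarith
    have hRZ : (R : ℝ) ≤ Z := by
      rw [hZ]
      push_cast
      nlinarith
    have h2Z : (2 : ℝ) ≤ Z := hR2.trans hRZ
    have hBBk : BB ^ (2 * k) ≤ B0 ^ (2 * k) * Z ^ (2 * k + r0 * r1 * (2 * k)) := by
      rw [hBB, mul_pow, mul_pow, ← pow_mul, mul_assoc]
      refine mul_le_mul_of_nonneg_left ?_ (by positivity)
      rw [pow_add]
      exact mul_le_mul (pow_le_pow_left₀ (by positivity) hKZ _)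
        (pow_le_pow_left₀ (by positivity) hRZ _) (by positivity) (by positivity)
    have hKR : 2 * (K * (R : ℝ) ^ (r1 * (r0 * (2 * k)))) ≤ Z ^ (1 + (1 + r1 * (r0 * (2 * k)))) := by
      rw [pow_add, pow_add, pow_one]
      exact mul_le_mul h2Z (mul_le_mul hKZ (pow_le_pow_left₀ (by positivity) hRZ _)
        (by positivity) (by positivity)) (by positivity) (by positivity)
    have hcardZ : (PF.card : ℝ) ≤ Z ^ ((2 * r0 + 1) * (2 * k)) :=
      hcard.trans (pow_le_pow_left₀ (by positivity) hRZ _)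
    calc (PF.card : ℝ) * (2 * (K * (R : ℝ) ^ (r1 * (r0 * (2 * k)))) * BB ^ (2 * k))
        ≤ Z ^ ((2 * r0 + 1) * (2 * k)) * (Z ^ (1 + (1 + r1 * (r0 * (2 * k)))) *
          (B0 ^ (2 * k) * Z ^ (2 * k + r0 * r1 * (2 * k)))) := by
          refine mul_le_mul hcardZ (mul_le_mul hKR hBBk (by positivity) (by positivity))
            (by positivity) (by positivity)
      _ = B0 ^ (2 * k) * Z ^ Ce := by
          rw [hCe]
          ring
      _ ≤ B0 ^ (2 * k) * Z ^ (⌈KL⌉₊ + Ce) := by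
          refine mul_le_mul_of_nonneg_left ?_ (by positivity)
          exact pow_le_pow_right₀ hZ1 (by omega)
  linarith

end

end Pool.Agent.Helper67.NX2
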